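import Pool.Agent.H52R3.EpiMain

set_option autoImplicit false
open Filter Topology Set Metric

/-! The complement of two closed discs. -/

namespace Pool.Agent.R215.TD

open Pool.Agent.H314.Dir

/-- the point `(x, z)` -/
noncomputable def pt (x z : ℝ) : Eu 2 := WithLp.toLp 2 ![x, z]

@[simp] theorem pt_zero (x z : ℝ) : (pt x z).ofLp 0 = x := rfl

@[simp] theorem pt_one (x z : ℝ) : (pt x z).ofLp 1 = z := rfl

/-- the domain: complement of the discs of radius `R` about `(0, R + h)` and `(0, -(R + h))` -/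
def Om (R h : ℝ) : Set (Eu 2) :=
  (closedBall (pt 0 (R + h)) R ∪ closedBall (pt 0 (-(R + h))) R)ᶜ

theorem dist_sq (X : Eu 2) (s t : ℝ) : dist X (pt s t) ^ 2 = (X.ofLp 0 - s) ^ 2 + (X.ofLp 1 - t) ^ 2 := by
  rw [EuclideanSpace.dist_eq, Real.sq_sqrt (Finset.sum_nonneg fun i _ => sq_nonneg _),
    Fin.sum_univ_two, Real.dist_eq, Real.dist_eq, sq_abs, sq_abs]
  rfl

theorem mem_Om {R h : ℝ} (hR : 0 < R) (X : Eu 2) : X ∈ Om R h ↔
    R ^ 2 < (X.ofLp 0) ^ 2 + (X.ofLp 1 - (R + h)) ^ 2 ∧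
      R ^ 2 < (X.ofLp 0) ^ 2 + (X.ofLp 1 + (R + h)) ^ 2 := by
  have h1 := dist_sq X 0 (R + h)
  have h2 := dist_sq X 0 (-(R + h))
  rw [sub_zero] at h1 h2
  rw [sub_neg_eq_add] at h2
  unfold Om
  rw [mem_compl_iff, mem_union, not_or, mem_closedBall, mem_closedBall, not_le, not_le, ← h1, ← h2,
    sq_lt_sq₀ hR.le dist_nonneg, sq_lt_sq₀ hR.le dist_nonneg]

theorem isOpen_Om (R h : ℝ) : IsOpen (Om R h) :=
  (isClosed_closedBall.union isClosed_closedBall).isOpen_compl

theorem frontier_closedBall_side {Ω : Set (Eu 2)} {c p : Eu 2} {R : ℝ} (hd : Disjoint (ball c R) Ω)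
    (hp : p ∈ closure Ω) (hc : p ∈ closedBall c R) : dist p c = R := by
  refine le_antisymm hc (not_lt.1 fun hlt => ?_)
  have h1 : (ball c R ∩ Ω).Nonempty := mem_closure_iff.1 hp _ isOpen_ball hlt
  rw [disjoint_iff_inter_eq_empty] at hd
  rw [hd] at h1
  exact not_nonempty_empty h1

theorem ext_Om {R h : ℝ} (hR : 0 < R) :
    ∀ p ∈ frontier (Om R h), ∃ r0 > 0, ∃ c, dist p c = r0 ∧ Disjoint (ball c r0) (Om R h) := by
  intro p hp
  have hd1 : Disjoint (ball (pt 0 (R + h)) R) (Om R h) := by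
    rw [Set.disjoint_left]
    intro x hx hx'
    exact hx' (Or.inl (ball_subset_closedBall hx))
  have hd2 : Disjoint (ball (pt 0 (-(R + h))) R) (Om R h) := by
    rw [Set.disjoint_left]
    intro x hx hx'
    exact hx' (Or.inr (ball_subset_closedBall hx))
  have hpn : p ∉ Om R h := by
    rw [(isOpen_Om R h).frontier_eq] at hp
    exact hp.2
  have hpc : p ∈ closure (Om R h) := frontier_subset_closure hp
  unfold Om at hpn
  rw [mem_compl_iff, not_not] at hpn
  rcases hpn with h1 | h1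
  · exact ⟨R, hR, _, frontier_closedBall_side hd1 hpc h1, hd1⟩
  · exact ⟨R, hR, _, frontier_closedBall_side hd2 hpc h1, hd2⟩

theorem isPreconnected_Om {R h : ℝ} (hR : 0 < R) (hh : 0 < h) : IsPreconnected (Om R h) := by
  have key : ∀ (x z σ : ℝ), σ ^ 2 = 1 → 0 ≤ σ * x → pt x z ∈ Om R h →
      ∃ t, t ⊆ Om R h ∧ (0 : Eu 2) ∈ t ∧ pt x z ∈ t ∧ IsPreconnected t := by
    intro x z σ hσ hx hX
    rw [mem_Om hR] at hX
    simp only [pt_zero, pt_one] at hX
    set T1 : Set (Eu 2) := {Y | Y.ofLp 1 = z ∧ σ * x ≤ σ * Y.ofLp 0} with hT1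
    set T2 : Set (Eu 2) := {Y | R < σ * Y.ofLp 0} with hT2
    set T3 : Set (Eu 2) := {Y | -h < Y.ofLp 1 ∧ Y.ofLp 1 < h} with hT3
    have c1 : Convex ℝ T1 := by
      intro X hX Y hY a b ha hb hab
      simp only [hT1, mem_setOf_eq, PiLp.add_apply, PiLp.smul_apply, smul_eq_mul] at hX hY ⊢
      constructor
      · rw [hX.1, hY.1, ← add_mul, hab, one_mul]
      · have e : σ * x = a * (σ * x) + b * (σ * x) := by rw [← add_mul, hab, one_mul]
        rw [e]
        nlinarith [mul_le_mul_of_nonneg_left hX.2 ha, mul_le_mul_of_nonneg_left hY.2 hb]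
    have c2 : Convex ℝ T2 := by
      have : T2 = (fun Y : Eu 2 => σ * Y.ofLp 0) ⁻¹' (Ioi R) := rfl
      rw [this]
      refine (convex_Ioi R).is_linear_preimage ⟨fun X Y => ?_, fun a X => ?_⟩
      · simp only [PiLp.add_apply]; ring
      · simp only [PiLp.smul_apply, smul_eq_mul]; ring
    have c3 : Convex ℝ T3 := by
      have : T3 = (fun Y : Eu 2 => Y.ofLp 1) ⁻¹' (Ioo (-h) h) := rfl
      rw [this]
      refine (convex_Ioo (-h) h).is_linear_preimage ⟨fun X Y => ?_, fun a X => ?_⟩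
      · simp only [PiLp.add_apply]
      · simp only [PiLp.smul_apply]
    have s1 : T1 ⊆ Om R h := by
      intro Y hY
      rw [mem_Om hR]
      obtain ⟨y1, y2⟩ := hY
      rw [y1]
      have : x ^ 2 ≤ (Y.ofLp 0) ^ 2 := by
        have h1 : (σ * x) ^ 2 ≤ (σ * Y.ofLp 0) ^ 2 := by
          exact pow_le_pow_left₀ hx y2 2
        rw [mul_pow, mul_pow, hσ, one_mul, one_mul] at h1
        exact h1
      constructor <;> linarith [hX.1, hX.2]
    have s2 : T2 ⊆ Om R h := by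
      intro Y hY
      rw [mem_Om hR]
      have h1 : R ^ 2 < (σ * Y.ofLp 0) ^ 2 := pow_lt_pow_left₀ hY hR.le (by norm_num)
      rw [mul_pow, hσ, one_mul] at h1
      constructor <;> nlinarith [sq_nonneg (Y.ofLp 1 - (R + h)), sq_nonneg (Y.ofLp 1 + (R + h))]
    have s3 : T3 ⊆ Om R h := by
      intro Y hY
      rw [mem_Om hR]
      obtain ⟨y1, y2⟩ := hY
      constructor <;> nlinarith [sq_nonneg (Y.ofLp 0)]
    refine ⟨T1 ∪ (T2 ∪ T3), union_subset s1 (union_subset s2 s3), ?_, ?_, ?_⟩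
    · right; right
      show -h < (0 : ℝ) ∧ (0 : ℝ) < h
      constructor <;> linarith
    · left
      exact ⟨rfl, le_rfl⟩
    · have p23 : IsPreconnected (T2 ∪ T3) := by
        refine IsPreconnected.union (pt (σ * (R + 1)) 0) ?_ ?_ c2.isPreconnected c3.isPreconnected
        · show R < σ * (σ * (R + 1))
          nlinarith
        · show -h < (0 : ℝ) ∧ (0 : ℝ) < h
          constructor <;> linarith
      refine IsPreconnected.union (pt (σ * (max (σ * x) (R + 1))) z) ?_ ?_ c1.isPreconnected p23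
      · refine ⟨rfl, ?_⟩
        show σ * x ≤ σ * (σ * (max (σ * x) (R + 1)))
        have e : σ * (σ * (max (σ * x) (R + 1))) = max (σ * x) (R + 1) := by
          rw [← mul_assoc, ← sq, hσ, one_mul]
        rw [e]
        exact le_max_left _ _
      · left
        show R < σ * (σ * (max (σ * x) (R + 1)))
        have e : σ * (σ * (max (σ * x) (R + 1))) = max (σ * x) (R + 1) := by
          rw [← mul_assoc, ← sq, hσ, one_mul]
        rw [e]
        have := le_max_right (σ * x) (R + 1)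
        linarith
  refine isPreconnected_of_forall (0 : Eu 2) fun Y hY => ?_
  have hYe : Y = pt (Y.ofLp 0) (Y.ofLp 1) := by
    ext i
    fin_cases i <;> rfl
  rw [hYe] at hY ⊢
  rcases le_total 0 (Y.ofLp 0) with h0 | h0
  · exact key _ _ 1 (by norm_num) (by rw [one_mul]; exact h0) hY
  · exact key _ _ (-1) (by norm_num) (by linarith) hY

theorem zero_mem_Om {R h : ℝ} (hR : 0 < R) (hh : 0 < h) : (0 : Eu 2) ∈ Om R h := by
  rw [mem_Om hR]
  simp only [PiLp.zero_apply]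
  constructor <;> nlinarith

theorem disjoint_discs {R h : ℝ} (hR : 0 < R) (hh : 0 < h) :
    Disjoint (closedBall (pt 0 (R + h)) R) (closedBall (pt 0 (-(R + h))) R) := by
  apply closedBall_disjoint_closedBall
  have h1 := dist_sq (pt 0 (R + h)) 0 (-(R + h))
  rw [pt_zero, pt_one] at h1
  have h2 : (R + R) ^ 2 < dist (pt 0 (R + h)) (pt 0 (-(R + h))) ^ 2 := by
    rw [h1]
    nlinarith
  exact lt_of_pow_lt_pow_left₀ 2 dist_nonneg h2

/-- width of the neck -/
theorem neck {R h : ℝ} (hR : 0 < R) {X : Eu 2} (hX : X ∈ Om R h)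
    (hx : |X.ofLp 0| ≤ R) (hz : |X.ofLp 1| ≤ R + h) : |X.ofLp 1| < h + (X.ofLp 0) ^ 2 / R := by
  rw [mem_Om hR] at hX
  have h3 : R ^ 2 < (X.ofLp 0) ^ 2 + (|X.ofLp 1| - (R + h)) ^ 2 := by
    rcases abs_cases (X.ofLp 1) with ⟨h1, _⟩ | ⟨h1, _⟩
    · rw [h1]; exact hX.1
    · rw [h1]
      have := hX.2
      nlinarith
  by_contra hcon
  rw [not_lt] at hcon
  set w := (X.ofLp 0) ^ 2 / R with hw
  have hwR : w * R = (X.ofLp 0) ^ 2 := by rw [hw]; field_simp
  have hx2 : (X.ofLp 0) ^ 2 ≤ R ^ 2 := by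
    rw [← sq_abs]
    exact pow_le_pow_left₀ (abs_nonneg _) hx 2
  have hw0 : 0 ≤ w := by positivity
  have hwR2 : w ≤ R := by
    rw [hw, div_le_iff₀ hR]
    nlinarith
  have h4 : (|X.ofLp 1| - (R + h)) ^ 2 ≤ (R - w) ^ 2 := by
    have h5 : 0 ≤ R + h - |X.ofLp 1| := by linarith
    have h6 : R + h - |X.ofLp 1| ≤ R - w := by linarith
    have h7 := pow_le_pow_left₀ h5 h6 2
    nlinarith
  nlinarith

/-- outside the domain `|z| ≥ h` -/
theorem le_of_notMem {R h : ℝ} (hR : 0 < R) {X : Eu 2} (hX : X ∉ Om R h) :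
    h ≤ |X.ofLp 1| := by
  by_contra hcon
  rw [not_le, abs_lt] at hcon
  apply hX
  rw [mem_Om hR]
  obtain ⟨y1, y2⟩ := hcon
  constructor <;> nlinarith [sq_nonneg (X.ofLp 0)]

/-- outside the domain `|x| ≤ R` -/
theorem abs_le_of_notMem {R h : ℝ} (hR : 0 < R) {X : Eu 2} (hX : X ∉ Om R h) :
    |X.ofLp 0| ≤ R := by
  by_contra hcon
  rw [not_le] at hcon
  apply hX
  rw [mem_Om hR]
  have h1 : R ^ 2 < |X.ofLp 0| ^ 2 := pow_lt_pow_left₀ hcon hR.le (by norm_num)
  rw [sq_abs] at h1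
  constructor <;> nlinarith [sq_nonneg (X.ofLp 1 - (R + h)), sq_nonneg (X.ofLp 1 + (R + h))]

end Pool.Agent.R215.TD
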