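import Pool.Agent.R215.TD.Geom

set_option autoImplicit false
open Filter Topology Set Metric

/-! Laplacian of products in the plane; local Lipschitz helpers. -/

namespace Pool.Agent.R215.TD

open Pool.Agent.H314.Dir

theorem coord_add (X : Eu 2) (t : ℝ) (k j : Fin 2) :
    (X + t • (EuclideanSpace.single j (1 : ℝ) : Eu 2)).ofLp k =
      X.ofLp k + t * (if k = j then 1 else 0) := by
  simp

theorem lap_prod {P P' Q Q' : ℝ → ℝ} {p'' q'' : ℝ} (X : Eu 2)
    (hP : ∀ᶠ x in 𝓝 (X.ofLp 0), HasDerivAt P (P' x) x) (hP' : HasDerivAt P' p'' (X.ofLp 0))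
    (hQ : ∀ᶠ z in 𝓝 (X.ofLp 1), HasDerivAt Q (Q' z) z) (hQ' : HasDerivAt Q' q'' (X.ofLp 1))
    (hC : ContDiffAt ℝ 2 (fun X : Eu 2 => P (X.ofLp 0) * Q (X.ofLp 1)) X) :
    lap (fun X : Eu 2 => P (X.ofLp 0) * Q (X.ofLp 1)) X =
      p'' * Q (X.ofLp 1) + P (X.ofLp 0) * q'' := by
  set u : Eu 2 → ℝ := fun X : Eu 2 => P (X.ofLp 0) * Q (X.ofLp 1) with hu
  have tend : ∀ s : ℝ, Tendsto (fun t : ℝ => s + t) (𝓝 0) (𝓝 s) := by
    intro s
    have h : Continuous fun t : ℝ => s + t := by fun_prop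
    have := h.tendsto 0
    simpa using this
  have l0 : iteratedFDeriv ℝ 2 u X (fun _ => EuclideanSpace.single 0 (1 : ℝ)) =
      p'' * Q (X.ofLp 1) := by
    apply iteratedFDeriv_two_of_line hC (g := fun t => P' (X.ofLp 0 + t) * Q (X.ofLp 1))
    · filter_upwards [(tend _).eventually hP] with t ht
      have h1 : (fun t : ℝ => u (X + t • (EuclideanSpace.single 0 (1 : ℝ) : Eu 2))) =
          fun t => P (X.ofLp 0 + t) * Q (X.ofLp 1) := by
        funext t
        simp only [hu]
        rw [coord_add, coord_add, if_pos rfl, if_neg (by decide), mul_one, mul_zero, add_zero]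
      rw [h1]
      exact (ht.comp_const_add _ _).mul_const _
    · have h2 : HasDerivAt P' p'' (X.ofLp 0 + 0) := by rwa [add_zero]
      exact (h2.comp_const_add (X.ofLp 0) 0).mul_const (Q (X.ofLp 1))
  have l1 : iteratedFDeriv ℝ 2 u X (fun _ => EuclideanSpace.single 1 (1 : ℝ)) =
      P (X.ofLp 0) * q'' := by
    apply iteratedFDeriv_two_of_line hC (g := fun t => P (X.ofLp 0) * Q' (X.ofLp 1 + t))
    · filter_upwards [(tend _).eventually hQ] with t ht
      have h1 : (fun t : ℝ => u (X + t • (EuclideanSpace.single 1 (1 : ℝ) : Eu 2))) =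
          fun t => P (X.ofLp 0) * Q (X.ofLp 1 + t) := by
        funext t
        simp only [hu]
        rw [coord_add, coord_add, if_pos rfl, if_neg (by decide), mul_one, mul_zero, add_zero]
      rw [h1]
      exact (ht.comp_const_add _ _).const_mul _
    · have h2 : HasDerivAt Q' q'' (X.ofLp 1 + 0) := by rwa [add_zero]
      exact (h2.comp_const_add (X.ofLp 1) 0).const_mul (P (X.ofLp 0))
  unfold lap
  rw [Fin.sum_univ_two, l0, l1]

theorem contDiff_c0 {n : WithTop ℕ∞} : ContDiff ℝ n (fun X : Eu 2 => X.ofLp 0) := by fun_prop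

theorem contDiff_c1 {n : WithTop ℕ∞} : ContDiff ℝ n (fun X : Eu 2 => X.ofLp 1) := by fun_prop

theorem lip_c0 : LocallyLipschitz (fun X : Eu 2 => X.ofLp 0) :=
  fun x => (contDiff_c0 (n := 1)).locallyLipschitz x

theorem lip_c1 : LocallyLipschitz (fun X : Eu 2 => X.ofLp 1) :=
  fun x => (contDiff_c1 (n := 1)).locallyLipschitz x

theorem lip_abs : LocallyLipschitz (fun t : ℝ => |t|) := by
  have h : LipschitzWith 1 (fun t : ℝ => |t|) := by
    refine LipschitzWith.of_dist_le_mul fun s t => ?_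
    rw [Real.dist_eq, Real.dist_eq, NNReal.coe_one, one_mul]
    exact abs_abs_sub_abs_le_abs_sub s t
  exact h.locallyLipschitz

theorem lip_inv_max {b : ℝ} (hb : 0 < b) : LocallyLipschitz (fun t : ℝ => (max t b)⁻¹) := by
  have h : LipschitzWith (Real.toNNReal (b⁻¹ ^ 2)) (fun t : ℝ => (max t b)⁻¹) := by
    refine LipschitzWith.of_dist_le_mul fun s t => ?_
    rw [Real.dist_eq, Real.dist_eq, Real.coe_toNNReal _ (by positivity)]
    have hs : b ≤ max s b := le_max_right _ _
    have ht : b ≤ max t b := le_max_right _ _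
    have hs0 : 0 < max s b := hb.trans_le hs
    have ht0 : 0 < max t b := hb.trans_le ht
    rw [inv_sub_inv hs0.ne' ht0.ne', abs_div, abs_of_pos (mul_pos hs0 ht0), div_le_iff₀ (mul_pos hs0 ht0)]
    have h1 : |max t b - max s b| ≤ |s - t| := by
      rw [abs_sub_comm]
      refine (abs_max_sub_max_le_max _ _ _ _).trans ?_
      rw [sub_self, abs_zero, max_eq_left (abs_nonneg _)]
    have h2 : 1 ≤ b⁻¹ ^ 2 * (max s b * max t b) := by
      have h3 : b * b ≤ max s b * max t b := mul_le_mul hs ht hb.le hs0.le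
      have h4 : b⁻¹ ^ 2 * (b * b) = 1 := by field_simp
      calc (1 : ℝ) = b⁻¹ ^ 2 * (b * b) := h4.symm
        _ ≤ _ := mul_le_mul_of_nonneg_left h3 (by positivity)
    calc |max t b - max s b| ≤ |s - t| * 1 := by rw [mul_one]; exact h1
      _ ≤ |s - t| * (b⁻¹ ^ 2 * (max s b * max t b)) := mul_le_mul_of_nonneg_left h2 (abs_nonneg _)
      _ = _ := by ring
  exact h.locallyLipschitz

end Pool.Agent.R215.TD
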