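import Pool.Agent.H52R3.EpiReact

set_option autoImplicit false
open Filter Topology Set Metric

/-! The reaction for the two-disc example (MP_dc9025_an). -/

namespace Pool.Agent.R215.TD

open Pool.Agent.H314.Dir Pool.Agent.H52R3.Epi

/-- the deficit `D(t) = (2/3) a⁴ t / (a⁴ + t⁴)` -/
noncomputable def DD (a t : ℝ) : ℝ := 2 / 3 * a ^ 4 * t / (a ^ 4 + t ^ 4)

/-- the reaction -/
noncomputable def rf (a t : ℝ) : ℝ :=
  t - DD a t - 4 * (1 - DD a 1) * ((max 0 (t - 1 / 2)) ^ 2 - (max 0 (t - 1)) ^ 2)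

theorem den_pos {a : ℝ} (ha : 0 < a) (t : ℝ) : 0 < a ^ 4 + t ^ 4 := by positivity

theorem DD_one {a : ℝ} : DD a 1 = 2 / 3 * a ^ 4 / (a ^ 4 + 1) := by
  unfold DD; norm_num

theorem DD_one_bounds {a : ℝ} (ha : 0 < a) (ha1 : a ≤ 1 / 1000000) :
    0 ≤ DD a 1 ∧ DD a 1 ≤ 2 / 3 * a ^ 4 ∧ DD a 1 ≤ 1 / 1000 := by
  rw [DD_one]
  have h1 : 0 < a ^ 4 := by positivity
  have h2 : a ^ 4 ≤ (1 / 1000000) ^ 4 := pow_le_pow_left₀ ha.le ha1 4
  have h3 : 2 / 3 * a ^ 4 / (a ^ 4 + 1) ≤ 2 / 3 * a ^ 4 := by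
    rw [div_le_iff₀ (by positivity)]
    nlinarith [mul_pos h1 h1]
  refine ⟨by positivity, h3, ?_⟩
  norm_num at h2
  linarith

theorem DD_zero (a : ℝ) : DD a 0 = 0 := by unfold DD; simp

theorem rf_zero (a : ℝ) : rf a 0 = 0 := by
  unfold rf
  rw [DD_zero]
  norm_num

theorem rf_one (a : ℝ) : rf a 1 = 0 := by
  unfold rf
  norm_num
  ring

/-- below one half -/
theorem rf_of_le {a t : ℝ} (ht : t ≤ 1 / 2) : rf a t = t - DD a t := by
  unfold rf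
  rw [max_eq_left (by linarith : t - 1 / 2 ≤ 0), max_eq_left (by linarith : t - 1 ≤ 0)]
  ring

theorem rf_of_mid {a t : ℝ} (ht : 1 / 2 ≤ t) (ht1 : t ≤ 1) :
    rf a t = t - DD a t - 4 * (1 - DD a 1) * (t - 1 / 2) ^ 2 := by
  unfold rf
  rw [max_eq_right (by linarith : 0 ≤ t - 1 / 2), max_eq_left (by linarith : t - 1 ≤ 0)]
  ring

theorem rf_of_ge {a t : ℝ} (ht : 1 ≤ t) :
    rf a t = t - DD a t - (1 - DD a 1) * (4 * t - 3) := by
  unfold rf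
  rw [max_eq_right (by linarith : 0 ≤ t - 1 / 2), max_eq_right (by linarith : 0 ≤ t - 1)]
  ring

theorem DD_le {a t : ℝ} (ha : 0 < a) (ht : 0 ≤ t) : DD a t ≤ 2 / 3 * t := by
  unfold DD
  rw [div_le_iff₀ (den_pos ha t)]
  have : 0 ≤ t ^ 4 := by positivity
  nlinarith [mul_nonneg ht this]

theorem DD_nonneg {a t : ℝ} (ha : 0 < a) (ht : 0 ≤ t) : 0 ≤ DD a t := by
  unfold DD
  have := den_pos ha t
  positivity

/-- `f(t) ≥ t/3` for `0 ≤ t ≤ 1/2` -/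
theorem rf_ge {a t : ℝ} (ha : 0 < a) (h0 : 0 ≤ t) (ht : t ≤ 1 / 2) : t / 3 ≤ rf a t := by
  rw [rf_of_le ht]
  have := DD_le ha h0
  linarith

theorem rf_le_e {a t : ℝ} (ha : 0 < a) (ha1 : a ≤ 1 / 1000000) (ht : t ≤ 1) :
    rf a t ≤ t - DD a t := by
  have h := DD_one_bounds ha ha1
  rcases le_total t (1 / 2) with h1 | h1
  · rw [rf_of_le h1]
  · rw [rf_of_mid h1 ht]
    have : 0 ≤ 4 * (1 - DD a 1) * (t - 1 / 2) ^ 2 := by
      have : 0 ≤ 1 - DD a 1 := by linarith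
      positivity
    linarith

/-- the difference `D(t) - D(1)` -/
theorem DD_sub {a : ℝ} (ha : 0 < a) (s t : ℝ) :
    DD a t - DD a s = 2 / 3 * a ^ 4 * ((t - s) * (a ^ 4 - s * t * (s ^ 2 + s * t + t ^ 2))) /
      ((a ^ 4 + t ^ 4) * (a ^ 4 + s ^ 4)) := by
  have h1 := (den_pos ha t).ne'
  have h2 := (den_pos ha s).ne'
  unfold DD
  field_simp
  ring

theorem rf_pos {a t : ℝ} (ha : 0 < a) (ha1 : a ≤ 1 / 1000000) (h0 : 0 < t) (h1 : t < 1) :
    0 < rf a t := by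
  rcases le_total t (1 / 2) with h | h
  · have := rf_ge ha h0.le h
    linarith
  · rw [rf_of_mid h h1.le]
    obtain ⟨d0, d1, d2⟩ := DD_one_bounds ha ha1
    have h4 : 0 < a ^ 4 := by positivity
    have h5 : a ^ 4 ≤ (1 / 1000000) ^ 4 := pow_le_pow_left₀ ha.le ha1 4
    norm_num at h5
    have e : DD a t - DD a 1 ≤ 32 * a ^ 4 * (1 - t) := by
      rw [DD_sub ha]
      have hd : 0 < (a ^ 4 + t ^ 4) * (a ^ 4 + 1 ^ 4) := by positivity
      rw [div_le_iff₀ hd]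
      have ht4 : (1 / 16 : ℝ) ≤ t ^ 4 := by
        have : (1 / 2 : ℝ) ^ 4 ≤ t ^ 4 := pow_le_pow_left₀ (by norm_num) h 4
        norm_num at this
        linarith
      have hA : 1 / 16 ≤ (a ^ 4 + t ^ 4) * (a ^ 4 + 1 ^ 4) := by nlinarith
      have hB : 1 * t * (1 ^ 2 + 1 * t + t ^ 2) - a ^ 4 ≤ 3 := by nlinarith
      have hC : 0 ≤ 1 - t := by linarith
      have hD : (1 - t) * (1 * t * (1 ^ 2 + 1 * t + t ^ 2) - a ^ 4) ≤ (1 - t) * 3 :=
        mul_le_mul_of_nonneg_left hB hC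
      have hE : (1 - t) * (1 / 16) ≤ (1 - t) * ((a ^ 4 + t ^ 4) * (a ^ 4 + 1 ^ 4)) :=
        mul_le_mul_of_nonneg_left hA hC
      nlinarith
    have e2 : DD a 1 * (1 - 4 * (t - 1 / 2) ^ 2) ≤ 4 * a ^ 4 * (1 - t) := by
      have : 1 - 4 * (t - 1 / 2) ^ 2 = 4 * t * (1 - t) := by ring
      rw [this]
      have h6 : 4 * t * (1 - t) ≤ 4 * (1 - t) := by nlinarith
      have h7 : 0 ≤ 4 * t * (1 - t) := by
        have : 0 ≤ 1 - t := by linarith
        positivity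
      nlinarith
    have e3 : t - DD a t - 4 * (1 - DD a 1) * (t - 1 / 2) ^ 2 =
        (1 - t) * (4 * t - 1) - (DD a t - DD a 1) - DD a 1 * (1 - 4 * (t - 1 / 2) ^ 2) := by ring
    rw [e3]
    have e4 : (1 - t) * 1 ≤ (1 - t) * (4 * t - 1) :=
      mul_le_mul_of_nonneg_left (by linarith) (by linarith)
    have e5 : 36 * a ^ 4 * (1 - t) < 1 * (1 - t) :=
      mul_lt_mul_of_pos_right (by linarith) (by linarith)
    linarith

theorem rf_neg {a t : ℝ} (ha : 0 < a) (ha1 : a ≤ 1 / 1000000) (h1 : 1 < t) : rf a t < 0 := by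
  rw [rf_of_ge h1.le]
  obtain ⟨d0, d1, d2⟩ := DD_one_bounds ha ha1
  have h4 : 0 < a ^ 4 := by positivity
  have h5 : a ^ 4 ≤ (1 / 1000000) ^ 4 := pow_le_pow_left₀ ha.le ha1 4
  norm_num at h5
  have e : DD a 1 - DD a t ≤ 2 * a ^ 4 * (t - 1) := by
    rw [DD_sub ha]
    have hd : 0 < (a ^ 4 + 1 ^ 4) * (a ^ 4 + t ^ 4) := by positivity
    rw [div_le_iff₀ hd]
    have e1 : (1 - t) * (a ^ 4 - t * 1 * (t ^ 2 + t * 1 + 1 ^ 2)) ≤
        (t - 1) * (3 * t ^ 3) := by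
      have h6 : t * 1 * (t ^ 2 + t * 1 + 1 ^ 2) - a ^ 4 ≤ 3 * t ^ 3 := by
        nlinarith [mul_pos (by linarith : 0 < t) (by linarith : 0 < t - 1),
          mul_pos (mul_pos (by linarith : 0 < t) (by linarith : 0 < t)) (by linarith : 0 < t - 1)]
      have := mul_le_mul_of_nonneg_left h6 (by linarith : 0 ≤ t - 1)
      linarith
    have e2 : t ^ 3 ≤ (a ^ 4 + 1 ^ 4) * (a ^ 4 + t ^ 4) := by
      have h7 : t ^ 3 ≤ t ^ 4 := by
        have : 0 < t ^ 3 := by positivity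
        nlinarith
      have h8 : 0 < t ^ 4 := by positivity
      nlinarith
    have e3 : (t - 1) * (3 * t ^ 3) ≤ (t - 1) * (3 * ((a ^ 4 + 1 ^ 4) * (a ^ 4 + t ^ 4))) := by
      apply mul_le_mul_of_nonneg_left _ (by linarith)
      linarith
    have e4 := e1.trans e3
    nlinarith
  have e1 : t - DD a t - (1 - DD a 1) * (4 * t - 3) =
      -3 * (t - 1) + 4 * DD a 1 * (t - 1) + (DD a 1 - DD a t) := by ring
  rw [e1]
  have e2 : 4 * DD a 1 * (t - 1) ≤ 1 / 250 * (t - 1) :=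
    mul_le_mul_of_nonneg_right (by linarith) (by linarith)
  have e3 : 2 * a ^ 4 * (t - 1) ≤ 1 / 250 * (t - 1) :=
    mul_le_mul_of_nonneg_right (by linarith) (by linarith)
  nlinarith

/-- derivative of the deficit -/
noncomputable def DD' (a t : ℝ) : ℝ := 2 / 3 * a ^ 4 * (a ^ 4 - 3 * t ^ 4) / (a ^ 4 + t ^ 4) ^ 2

theorem hasDerivAt_DD {a : ℝ} (ha : 0 < a) (t : ℝ) : HasDerivAt (DD a) (DD' a t) t := by
  have hd := den_pos ha t
  have h1 : HasDerivAt (fun t : ℝ => 2 / 3 * a ^ 4 * t) (2 / 3 * a ^ 4) t := by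
    simpa using (hasDerivAt_id t).const_mul (2 / 3 * a ^ 4)
  have h2 : HasDerivAt (fun t : ℝ => a ^ 4 + t ^ 4) (4 * t ^ 3) t := by
    simpa using (hasDerivAt_pow 4 t).const_add (a ^ 4)
  have h3 := h1.div h2 hd.ne'
  have e : DD' a t = (2 / 3 * a ^ 4 * (a ^ 4 + t ^ 4) - 2 / 3 * a ^ 4 * t * (4 * t ^ 3)) /
      (a ^ 4 + t ^ 4) ^ 2 := by
    unfold DD'
    congr 1
    ring
  rw [e]
  exact h3

/-- second derivative of the deficit -/
noncomputable def DD'' (a t : ℝ) : ℝ :=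
  2 / 3 * a ^ 4 * (t ^ 3 * (12 * t ^ 4 - 20 * a ^ 4)) / (a ^ 4 + t ^ 4) ^ 3

theorem hasDerivAt_DD' {a : ℝ} (ha : 0 < a) (t : ℝ) : HasDerivAt (DD' a) (DD'' a t) t := by
  have hd := den_pos ha t
  have h1 : HasDerivAt (fun t : ℝ => 2 / 3 * a ^ 4 * (a ^ 4 - 3 * t ^ 4))
      (2 / 3 * a ^ 4 * (-(3 * (4 * t ^ 3)))) t := by
    have := (((hasDerivAt_pow 4 t).const_mul 3).const_sub (a ^ 4)).const_mul (2 / 3 * a ^ 4)
    simpa using this
  have h2 : HasDerivAt (fun t : ℝ => a ^ 4 + t ^ 4) (4 * t ^ 3) t := by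
    simpa using (hasDerivAt_pow 4 t).const_add (a ^ 4)
  have h2' := h2.pow 2
  have h3 := h1.div h2' (pow_pos hd 2).ne'
  have e : DD'' a t = (2 / 3 * a ^ 4 * (-(3 * (4 * t ^ 3))) * (a ^ 4 + t ^ 4) ^ 2 -
      2 / 3 * a ^ 4 * (a ^ 4 - 3 * t ^ 4) * (((2 : ℕ) : ℝ) * (a ^ 4 + t ^ 4) ^ (2 - 1) * (4 * t ^ 3))) /
      ((a ^ 4 + t ^ 4) ^ 2) ^ 2 := by
    unfold DD''
    rw [div_eq_div_iff (pow_pos hd 3).ne' (pow_pos (pow_pos hd 2) 2).ne']
    push_cast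
    ring
  rw [e]
  exact h3

theorem DD'_bound {a : ℝ} (ha : 0 < a) (t : ℝ) : |DD' a t| ≤ 2 := by
  have hd := den_pos ha t
  unfold DD'
  rw [abs_div, abs_of_pos (by positivity : 0 < (a ^ 4 + t ^ 4) ^ 2), div_le_iff₀ (by positivity)]
  have h1 : 0 < a ^ 4 := by positivity
  have h2 : 0 ≤ t ^ 4 := by positivity
  rw [abs_le]
  constructor <;> nlinarith [mul_pos h1 h1, mul_nonneg h1.le h2, mul_nonneg h2 h2]

theorem DD''_bound {a : ℝ} (ha : 0 < a) (t : ℝ) : |DD'' a t| ≤ 14 / a := by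
  have hd := den_pos ha t
  have h1 : 0 < a ^ 4 := by positivity
  have h2 : 0 ≤ t ^ 4 := by positivity
  have key : |t| ^ 3 * a ≤ a ^ 4 + t ^ 4 := by
    have ht4 : t ^ 4 = |t| ^ 4 := by
      rw [← abs_pow, abs_of_nonneg h2]
    rw [ht4]
    have hx := abs_nonneg t
    nlinarith [sq_nonneg (|t| ^ 2 - a ^ 2), sq_nonneg (|t| ^ 2 - |t| * a), sq_nonneg (|t| - a),
      mul_nonneg hx ha.le, sq_nonneg (|t| * a - a ^ 2)]
  unfold DD''
  rw [abs_div, abs_of_pos (by positivity : 0 < (a ^ 4 + t ^ 4) ^ 3), div_le_div_iff₀ (by positivity) ha]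
  rw [abs_mul, abs_of_pos (by positivity : 0 < 2 / 3 * a ^ 4), abs_mul, abs_pow]
  have e1 : |12 * t ^ 4 - 20 * a ^ 4| ≤ 20 * (a ^ 4 + t ^ 4) := by
    rw [abs_le]
    constructor <;> linarith
  have e2 : |t| ^ 3 * |12 * t ^ 4 - 20 * a ^ 4| * a ≤ (a ^ 4 + t ^ 4) * (20 * (a ^ 4 + t ^ 4)) := by
    calc |t| ^ 3 * |12 * t ^ 4 - 20 * a ^ 4| * a = (|t| ^ 3 * a) * |12 * t ^ 4 - 20 * a ^ 4| := by ring
      _ ≤ (a ^ 4 + t ^ 4) * (20 * (a ^ 4 + t ^ 4)) :=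
        mul_le_mul key e1 (abs_nonneg _) hd.le
  calc 2 / 3 * a ^ 4 * (|t| ^ 3 * |12 * t ^ 4 - 20 * a ^ 4|) * a
      = 2 / 3 * a ^ 4 * (|t| ^ 3 * |12 * t ^ 4 - 20 * a ^ 4| * a) := by ring
    _ ≤ 2 / 3 * a ^ 4 * ((a ^ 4 + t ^ 4) * (20 * (a ^ 4 + t ^ 4))) :=
        mul_le_mul_of_nonneg_left e2 (by positivity)
    _ ≤ 14 * (a ^ 4 + t ^ 4) ^ 3 := by
        have : a ^ 4 * (a ^ 4 + t ^ 4) ^ 2 ≤ (a ^ 4 + t ^ 4) ^ 3 := by
          have h3 : a ^ 4 ≤ a ^ 4 + t ^ 4 := by linarith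
          calc a ^ 4 * (a ^ 4 + t ^ 4) ^ 2 ≤ (a ^ 4 + t ^ 4) * (a ^ 4 + t ^ 4) ^ 2 :=
                mul_le_mul_of_nonneg_right h3 (by positivity)
            _ = (a ^ 4 + t ^ 4) ^ 3 := by ring
        have h4 : 0 ≤ (a ^ 4 + t ^ 4) ^ 3 := by positivity
        nlinarith

theorem DD_lip {a : ℝ} (ha : 0 < a) (s t : ℝ) : |DD a s - DD a t| ≤ 2 * |s - t| := by
  have h := Convex.norm_image_sub_le_of_norm_hasDerivWithin_le (f := DD a) (f' := DD' a) (s := univ)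
    (C := 2) (x := t) (y := s) (fun x _ => (hasDerivAt_DD ha x).hasDerivWithinAt)
    (fun x _ => DD'_bound ha x) convex_univ (mem_univ _) (mem_univ _)
  simpa [Real.norm_eq_abs] using h

theorem DD'_lip {a : ℝ} (ha : 0 < a) (s t : ℝ) : |DD' a s - DD' a t| ≤ 14 / a * |s - t| := by
  have h := Convex.norm_image_sub_le_of_norm_hasDerivWithin_le (f := DD' a) (f' := DD'' a) (s := univ)
    (C := 14 / a) (x := t) (y := s) (fun x _ => (hasDerivAt_DD' ha x).hasDerivWithinAt)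
    (fun x _ => DD''_bound ha x) convex_univ (mem_univ _) (mem_univ _)
  simpa [Real.norm_eq_abs] using h

theorem hasDerivAt_rf {a : ℝ} (ha : 0 < a) (t : ℝ) :
    HasDerivAt (rf a) (1 - DD' a t - 8 * (1 - DD a 1) * cl t) t := by
  have h1 := ((hasDerivAt_id t).sub (hasDerivAt_DD ha t)).sub
    (((Re.hasDerivAt_sq t).sub (hasDerivAt_sq1 t)).const_mul (4 * (1 - DD a 1)))
  have h2 : 1 - DD' a t - 8 * (1 - DD a 1) * cl t =
      1 - DD' a t - 4 * (1 - DD a 1) * (2 * max 0 (t - 1 / 2) - 2 * max 0 (t - 1)) := by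
    unfold cl; ring
  rw [h2]
  exact h1

theorem deriv_rf {a : ℝ} (ha : 0 < a) :
    deriv (rf a) = fun t => 1 - DD' a t - 8 * (1 - DD a 1) * cl t := by
  funext t
  exact (hasDerivAt_rf ha t).deriv

theorem deriv_rf_lip {a : ℝ} (ha : 0 < a) (ha1 : a ≤ 1 / 1000000) (s t : ℝ) :
    |deriv (rf a) s - deriv (rf a) t| ≤ (14 / a + 8) * |s - t| := by
  rw [deriv_rf ha]
  simp only
  obtain ⟨d0, d1, d2⟩ := DD_one_bounds ha ha1
  have e : 1 - DD' a s - 8 * (1 - DD a 1) * cl s - (1 - DD' a t - 8 * (1 - DD a 1) * cl t) =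
      -(DD' a s - DD' a t) - 8 * (1 - DD a 1) * (cl s - cl t) := by ring
  rw [e]
  refine (abs_sub _ _).trans ?_
  rw [abs_neg, abs_mul, abs_of_nonneg (by linarith : 0 ≤ 8 * (1 - DD a 1))]
  have h1 := DD'_lip ha s t
  have h2 := cl_lip s t
  have h3 : 8 * (1 - DD a 1) * |cl s - cl t| ≤ 8 * |s - t| := by
    have h4 := abs_nonneg (cl s - cl t)
    nlinarith
  nlinarith

theorem lipschitz_deriv_rf {a : ℝ} (ha : 0 < a) (ha1 : a ≤ 1 / 1000000) :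
    LipschitzWith (Real.toNNReal (14 / a + 8)) (deriv (rf a)) := by
  refine LipschitzWith.of_dist_le_mul fun s t => ?_
  rw [Real.dist_eq, Real.dist_eq, Real.coe_toNNReal _ (by positivity)]
  exact deriv_rf_lip ha ha1 s t

theorem contDiff_rf {a : ℝ} (ha : 0 < a) (ha1 : a ≤ 1 / 1000000) : ContDiff ℝ 1 (rf a) := by
  rw [contDiff_one_iff_deriv]
  exact ⟨fun t => (hasDerivAt_rf ha t).differentiableAt, (lipschitz_deriv_rf ha ha1).continuous⟩

theorem deriv_rf_zero {a : ℝ} (ha : 0 < a) : 0 < deriv (rf a) 0 := by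
  rw [deriv_rf ha]
  have h : cl 0 = 0 := by unfold cl; norm_num
  have h2 : DD' a 0 = 2 / 3 := by
    unfold DD'
    have : a ^ 4 ≠ 0 := by positivity
    norm_num
    field_simp
  simp only [h, h2]
  norm_num

theorem deriv_rf_one {a : ℝ} (ha : 0 < a) (ha1 : a ≤ 1 / 1000000) : deriv (rf a) 1 < 0 := by
  rw [deriv_rf ha]
  have h : cl 1 = 1 / 2 := by unfold cl; norm_num
  have h2 := (abs_le.1 (DD'_bound ha 1)).1
  obtain ⟨d0, d1, d2⟩ := DD_one_bounds ha ha1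
  simp only [h]
  linarith

theorem deriv_rf_bound {a : ℝ} (ha : 0 < a) (ha1 : a ≤ 1 / 1000000) (t : ℝ) :
    |deriv (rf a) t| ≤ 8 := by
  rw [deriv_rf ha]
  simp only
  obtain ⟨d0, d1, d2⟩ := DD_one_bounds ha ha1
  have h2 := abs_le.1 (DD'_bound ha t)
  have h3 := cl_nonneg t
  have h4 := cl_le t
  rw [abs_le]
  constructor <;> nlinarith

theorem locallyLipschitz_rf {a : ℝ} (ha : 0 < a) (ha1 : a ≤ 1 / 1000000) :
    LocallyLipschitz (rf a) := fun x => (contDiff_rf ha ha1).locallyLipschitz x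

theorem monotone_rf {a : ℝ} (ha : 0 < a) (ha1 : a ≤ 1 / 1000000) :
    MonotoneOn (fun t => rf a t + 8 * t) (Icc 0 1) := by
  have h : Monotone (fun t => rf a t + 8 * t) := by
    have hd : ∀ t, HasDerivAt (fun t => rf a t + 8 * t) (deriv (rf a) t + 8) t := by
      intro t
      have h1 : HasDerivAt (rf a) (deriv (rf a) t) t := by
        rw [deriv_rf ha]
        exact hasDerivAt_rf ha t
      have h2 : HasDerivAt (fun t : ℝ => 8 * t) 8 t := by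
        simpa using (hasDerivAt_id t).const_mul 8
      exact h1.add h2
    refine monotone_of_deriv_nonneg (fun t => (hd t).differentiableAt) fun t => ?_
    rw [(hd t).deriv]
    have := (abs_le.1 (deriv_rf_bound ha ha1 t)).1
    linarith
  exact h.monotoneOn _

theorem rf_nonneg {a : ℝ} (ha : 0 < a) (ha1 : a ≤ 1 / 1000000) (s : ℝ) (hs : s ∈ Icc (0 : ℝ) 1) :
    0 ≤ rf a s := by
  rcases hs.1.eq_or_lt with h | h
  · rw [← h, rf_zero]
  rcases hs.2.eq_or_lt with h' | h'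
  · rw [h', rf_one]
  exact (rf_pos ha ha1 h h').le

end Pool.Agent.R215.TD
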