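import Pool.Agent.R215.TD.Lap2
import Pool.Agent.R215.TD.React

set_option autoImplicit false
open Filter Topology Set Metric

/-! The large subsolution. -/

namespace Pool.Agent.R215.TD

open Pool.Agent.H314.Dir Pool.Agent.H52R3.Epi

/-- half of the gap -/
noncomputable def hh (a : ℝ) : ℝ := Real.pi / 2 + 50 * a ^ 3

/-- the large subsolution -/
noncomputable def Vl (a : ℝ) (X : Eu 2) : ℝ :=
  max 0 (2 / 5 * Real.cos (min |X.ofLp 1| (hh a)) +
    10 * a ^ 4 * (max (Real.cos (min |X.ofLp 1| (hh a)) + a) (2 / 3 * a))⁻¹)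

/-- its profile -/
noncomputable def V0 (a z : ℝ) : ℝ := 2 / 5 * Real.cos z + 10 * a ^ 4 / (Real.cos z + a)

noncomputable def V0' (a z : ℝ) : ℝ :=
  -(2 / 5 * Real.sin z) + 10 * a ^ 4 * Real.sin z / (Real.cos z + a) ^ 2

noncomputable def V0'' (a z : ℝ) : ℝ :=
  -(2 / 5 * Real.cos z) + 10 * a ^ 4 * (2 + a * Real.cos z - Real.cos z ^ 2) / (Real.cos z + a) ^ 3

theorem hasDerivAt_V0 {a z : ℝ} (hz : Real.cos z + a ≠ 0) : HasDerivAt (V0 a) (V0' a z) z := by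
  have h1 := (Real.hasDerivAt_cos z).const_mul (2 / 5)
  have h2 := (Real.hasDerivAt_cos z).add_const a
  have h3 := (hasDerivAt_const z (10 * a ^ 4)).div h2 hz
  have h4 := h1.add h3
  have e : V0' a z = 2 / 5 * -Real.sin z +
      (0 * (Real.cos z + a) - 10 * a ^ 4 * -Real.sin z) / (Real.cos z + a) ^ 2 := by
    unfold V0'
    ring
  rw [e]
  exact h4

theorem hasDerivAt_V0' {a z : ℝ} (hz : Real.cos z + a ≠ 0) : HasDerivAt (V0' a) (V0'' a z) z := by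
  have h1 := ((Real.hasDerivAt_sin z).const_mul (2 / 5)).neg
  have h2 := ((Real.hasDerivAt_cos z).add_const a).pow 2
  have h3 := ((Real.hasDerivAt_sin z).const_mul (10 * a ^ 4)).div h2 (pow_ne_zero 2 hz)
  have h4 := h1.add h3
  have e : V0'' a z = -(2 / 5 * Real.cos z) +
      (10 * a ^ 4 * Real.cos z * (Real.cos z + a) ^ 2 - 10 * a ^ 4 * Real.sin z *
        (((2 : ℕ) : ℝ) * (Real.cos z + a) ^ (2 - 1) * -Real.sin z)) / ((Real.cos z + a) ^ 2) ^ 2 := by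
    unfold V0''
    congr 1
    have hs : Real.sin z ^ 2 = 1 - Real.cos z ^ 2 := by
      have := Real.sin_sq_add_cos_sq z
      linarith
    rw [div_eq_div_iff (pow_ne_zero 3 hz) (pow_ne_zero 2 (pow_ne_zero 2 hz))]
    have e1 : 10 * a ^ 4 * Real.cos z * (Real.cos z + a) ^ 2 - 10 * a ^ 4 * Real.sin z *
        (((2 : ℕ) : ℝ) * (Real.cos z + a) ^ (2 - 1) * -Real.sin z) =
        10 * a ^ 4 * (Real.cos z + a) * (Real.cos z * (Real.cos z + a) + 2 * Real.sin z ^ 2) := by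
      push_cast
      ring
    rw [e1, hs]
    ring
  rw [e]
  exact h4

theorem a3_small {a : ℝ} (ha : 0 < a) (ha1 : a ≤ 1 / 1000000) :
    0 < a ^ 3 ∧ 50 * a ^ 3 < a / 3 ∧ 50 * a ^ 3 ≤ 1 := by
  have h2 : a ^ 2 ≤ (1 / 1000000) ^ 2 := pow_le_pow_left₀ ha.le ha1 2
  norm_num at h2
  refine ⟨by positivity, ?_, ?_⟩ <;> nlinarith

theorem cos_hh {a : ℝ} : Real.cos (hh a) = -Real.sin (50 * a ^ 3) := by
  unfold hh
  rw [add_comm, Real.cos_add_pi_div_two]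

theorem sin_bounds {a : ℝ} (ha : 0 < a) (ha1 : a ≤ 1 / 1000000) :
    45 * a ^ 3 ≤ Real.sin (50 * a ^ 3) ∧ Real.sin (50 * a ^ 3) < a / 3 := by
  obtain ⟨h0, h1, h2⟩ := a3_small ha ha1
  constructor
  · have := Real.sin_gt_sub_cube (x := 50 * a ^ 3) (by positivity)
    have h3 : (50 * a ^ 3) ^ 3 / 6 ≤ 5 * a ^ 3 := by
      have h4 : a ^ 3 ≤ (1 / 1000000) ^ 3 := pow_le_pow_left₀ ha.le ha1 3
      norm_num at h4
      have h5 : (a ^ 3) ^ 2 ≤ a ^ 3 * (1 / 1000000) := by nlinarith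
      nlinarith
    linarith
  · have := Real.sin_lt (x := 50 * a ^ 3) (by positivity)
    linarith

theorem hh_lt_pi {a : ℝ} (ha : 0 < a) (ha1 : a ≤ 1 / 1000000) : hh a < Real.pi := by
  obtain ⟨h0, h1, h2⟩ := a3_small ha ha1
  have := Real.pi_gt_three
  unfold hh
  linarith

theorem hh_pos {a : ℝ} (ha : 0 < a) : 0 < hh a := by
  unfold hh
  have := Real.pi_pos
  positivity

theorem cos_ge {a z : ℝ} (ha : 0 < a) (ha1 : a ≤ 1 / 1000000) (hz : |z| ≤ hh a) :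
    -(a / 3) < Real.cos z := by
  have h1 : Real.cos (hh a) ≤ Real.cos |z| :=
    Real.cos_le_cos_of_nonneg_of_le_pi (abs_nonneg z) (hh_lt_pi ha ha1).le hz
  rw [cos_hh, Real.cos_abs] at h1
  have := (sin_bounds ha ha1).2
  linarith

theorem Vl_eq {a : ℝ} (ha : 0 < a) (ha1 : a ≤ 1 / 1000000) (X : Eu 2) :
    Vl a X = max 0 (V0 a (min |X.ofLp 1| (hh a))) := by
  have hz : |min |X.ofLp 1| (hh a)| ≤ hh a := by
    rw [abs_of_nonneg (le_min (abs_nonneg _) (hh_pos ha).le)]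
    exact min_le_right _ _
  have h := cos_ge ha ha1 hz
  unfold Vl V0
  rw [max_eq_left (by linarith : 2 / 3 * a ≤ Real.cos (min |X.ofLp 1| (hh a)) + a)]
  rfl

theorem V0_hh {a : ℝ} (ha : 0 < a) (ha1 : a ≤ 1 / 1000000) : V0 a (hh a) < 0 := by
  have h1 := sin_bounds ha ha1
  obtain ⟨h0, _, _⟩ := a3_small ha ha1
  have h2 : 10 * a ^ 4 / (Real.cos (hh a) + a) ≤ 15 * a ^ 3 := by
    rw [cos_hh, div_le_iff₀ (by linarith)]
    have h3 : 2 / 3 * a ≤ -Real.sin (50 * a ^ 3) + a := by linarith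
    calc 10 * a ^ 4 = 15 * a ^ 3 * (2 / 3 * a) := by ring
      _ ≤ 15 * a ^ 3 * (-Real.sin (50 * a ^ 3) + a) := mul_le_mul_of_nonneg_left h3 (by positivity)
  unfold V0
  rw [cos_hh] at h2 ⊢
  linarith

theorem V0_le {a z : ℝ} (ha : 0 < a) (ha1 : a ≤ 1 / 1000000) (hz : |z| ≤ hh a) : V0 a z ≤ 1 / 2 := by
  have h := cos_ge ha ha1 hz
  have h1 := Real.cos_le_one z
  have h2 : 10 * a ^ 4 / (Real.cos z + a) ≤ 15 * a ^ 3 := by
    rw [div_le_iff₀ (by linarith)]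
    have h3 : 2 / 3 * a ≤ Real.cos z + a := by linarith
    calc 10 * a ^ 4 = 15 * a ^ 3 * (2 / 3 * a) := by ring
      _ ≤ 15 * a ^ 3 * (Real.cos z + a) := mul_le_mul_of_nonneg_left h3 (by positivity)
  obtain ⟨h0, h4, _⟩ := a3_small ha ha1
  unfold V0
  linarith

theorem V0_even (a z : ℝ) : V0 a |z| = V0 a z := by
  unfold V0
  rw [Real.cos_abs]

theorem Vl_of_lt {a : ℝ} (ha : 0 < a) (ha1 : a ≤ 1 / 1000000) {X : Eu 2} (hX : |X.ofLp 1| < hh a) :
    Vl a X = max 0 (V0 a (X.ofLp 1)) := by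
  rw [Vl_eq ha ha1, min_eq_left hX.le, V0_even]

theorem Vl_of_ge {a : ℝ} (ha : 0 < a) (ha1 : a ≤ 1 / 1000000) {X : Eu 2} (hX : hh a ≤ |X.ofLp 1|) :
    Vl a X = 0 := by
  rw [Vl_eq ha ha1, min_eq_right hX, max_eq_left (V0_hh ha ha1).le]

theorem Vl_nonneg (a : ℝ) (X : Eu 2) : 0 ≤ Vl a X := le_max_left _ _

theorem Vl_le {a : ℝ} (ha : 0 < a) (ha1 : a ≤ 1 / 1000000) (X : Eu 2) : Vl a X ≤ 1 / 2 := by
  rcases lt_or_ge |X.ofLp 1| (hh a) with h | h
  · rw [Vl_of_lt ha ha1 h]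
    exact max_le (by norm_num) (V0_le ha ha1 h.le)
  · rw [Vl_of_ge ha ha1 h]
    norm_num

theorem Vl_zero {a : ℝ} (ha : 0 < a) (ha1 : a ≤ 1 / 1000000) : 2 / 5 ≤ Vl a 0 := by
  have h : |(0 : Eu 2).ofLp 1| < hh a := by
    simp only [PiLp.zero_apply, abs_zero]
    exact hh_pos ha
  rw [Vl_of_lt ha ha1 h]
  refine le_trans ?_ (le_max_right _ _)
  unfold V0
  simp only [PiLp.zero_apply, Real.cos_zero]
  have : 0 ≤ 10 * a ^ 4 / (1 + a) := by positivity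
  linarith

/-- the polynomial inequality behind the subsolution property -/
theorem poly_key {a c V : ℝ} (ha : 0 < a) (hc : 0 < c + a) (hV : 0 < V) (hcV : 2 / 5 * c ≤ V) :
    V * (c + a) ^ 3 ≤ 30 * (a ^ 4 + V ^ 4) := by
  have h1 : c + a ≤ a + 5 / 2 * V := by linarith
  have h2 : (c + a) ^ 3 ≤ (a + 5 / 2 * V) ^ 3 := pow_le_pow_left₀ hc.le h1 3
  have h3 : V * (c + a) ^ 3 ≤ V * (a + 5 / 2 * V) ^ 3 := mul_le_mul_of_nonneg_left h2 hV.le
  refine h3.trans ?_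
  have h4 : 0 ≤ 30 * a ^ 4 + 115 / 8 * V ^ 4 - a ^ 3 * V - 15 / 2 * a ^ 2 * V ^ 2
      - 75 / 4 * a * V ^ 3 := by
    nlinarith [sq_nonneg (V ^ 2 - 6 / 5 * a * V), sq_nonneg (V ^ 2 - 36 / 25 * a ^ 2),
      sq_nonneg (a * V - 6 / 5 * a ^ 2), sq_nonneg (V ^ 2 - 3 / 5 * a * V - 1 * a ^ 2),
      sq_nonneg (a ^ 2), sq_nonneg (a * V), mul_pos ha hV]
  nlinarith

theorem V0_sub {a z : ℝ} (ha : 0 < a) (ha1 : a ≤ 1 / 1000000) (hz : |z| ≤ hh a) (hV : 0 < V0 a z) :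
    -V0'' a z ≤ rf a (V0 a z) := by
  rw [rf_of_le (V0_le ha ha1 hz)]
  have h := cos_ge ha ha1 hz
  set c := Real.cos z with hc
  have hca : 0 < c + a := by linarith
  have hcle : c ≤ 1 := Real.cos_le_one z
  have h4 : 0 < a ^ 4 := by positivity
  have hcV : 2 / 5 * c ≤ V0 a z := by
    unfold V0
    have : 0 ≤ 10 * a ^ 4 / (Real.cos z + a) := by positivity
    linarith
  have key := poly_key ha hca hV hcV
  have e : V0'' a z + V0 a z = 10 * a ^ 4 * (2 + 3 * a * c + a ^ 2) / (c + a) ^ 3 := by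
    unfold V0'' V0
    rw [← hc]
    field_simp
    ring
  have e1 : 20 * a ^ 4 / (c + a) ^ 3 ≤ V0'' a z + V0 a z := by
    rw [e, div_le_div_iff_of_pos_right (by positivity)]
    have : 0 ≤ 3 * a * c + a ^ 2 := by nlinarith
    nlinarith
  have e2 : DD a (V0 a z) ≤ 20 * a ^ 4 / (c + a) ^ 3 := by
    unfold DD
    rw [div_le_div_iff₀ (den_pos ha _) (by positivity)]
    nlinarith
  linarith

theorem Vl_sub {a : ℝ} (ha : 0 < a) (ha1 : a ≤ 1 / 1000000) {X : Eu 2} (h : 0 < Vl a X) :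
    ContDiffAt ℝ 2 (Vl a) X ∧ -lap (Vl a) X ≤ rf a (Vl a X) := by
  have hz : |X.ofLp 1| < hh a := by
    by_contra hcon
    rw [Vl_of_ge ha ha1 (not_lt.1 hcon)] at h
    exact lt_irrefl _ h
  have hV : 0 < V0 a (X.ofLp 1) := by
    rw [Vl_of_lt ha ha1 hz] at h
    rcases lt_max_iff.1 h with h | h
    · exact absurd h (lt_irrefl _)
    · exact h
  have hc := cos_ge ha ha1 hz.le
  have hca : Real.cos (X.ofLp 1) + a ≠ 0 := by
    have : 0 < Real.cos (X.ofLp 1) + a := by linarith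
    exact this.ne'
  have hco : Continuous fun Y : Eu 2 => Y.ofLp 1 := contDiff_c1 (n := 1) |>.continuous
  have hev : Vl a =ᶠ[𝓝 X] fun Y => 1 * V0 a (Y.ofLp 1) := by
    have h1 : ∀ᶠ Y : Eu 2 in 𝓝 X, |Y.ofLp 1| < hh a :=
      hco.abs.continuousAt.eventually_lt_const hz
    have h2 : ContinuousAt (fun Y : Eu 2 => V0 a (Y.ofLp 1)) X := by
      have h3 : ContinuousAt (V0 a) (X.ofLp 1) := (hasDerivAt_V0 hca).continuousAt
      exact ContinuousAt.comp (f := fun Y : Eu 2 => Y.ofLp 1) h3 hco.continuousAt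
    have h4 : ∀ᶠ Y : Eu 2 in 𝓝 X, 0 < V0 a (Y.ofLp 1) := h2.eventually_const_lt hV
    filter_upwards [h1, h4] with Y hY1 hY2
    rw [Vl_of_lt ha ha1 hY1, max_eq_right hY2.le, one_mul]
  have hC : ContDiffAt ℝ 2 (fun Y : Eu 2 => (1 : ℝ) * V0 a (Y.ofLp 1)) X := by
    unfold V0
    have h1 : ContDiff ℝ 2 (fun Y : Eu 2 => Real.cos (Y.ofLp 1)) := by fun_prop
    exact contDiffAt_const.mul ((contDiffAt_const.mul h1.contDiffAt).add
      (contDiffAt_const.div (h1.contDiffAt.add contDiffAt_const) hca))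
  have hne : ∀ᶠ z in 𝓝 (X.ofLp 1), Real.cos z + a ≠ 0 := by
    have : ContinuousAt (fun z => Real.cos z + a) (X.ofLp 1) := by fun_prop
    exact this.eventually_ne hca
  have hl := lap_prod (P := fun _ => (1 : ℝ)) (P' := fun _ => 0) (p'' := 0) (Q := V0 a) (Q' := V0' a)
    (q'' := V0'' a (X.ofLp 1)) X (Eventually.of_forall fun x => hasDerivAt_const _ _)
    (hasDerivAt_const _ _) (by filter_upwards [hne] with z hz using hasDerivAt_V0 hz)
    (hasDerivAt_V0' hca) hC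
  refine ⟨hC.congr_of_eventuallyEq hev, ?_⟩
  rw [lap_congr hev, hl, Vl_of_lt ha ha1 hz, max_eq_right hV.le, zero_mul, zero_add, one_mul]
  exact V0_sub ha ha1 hz.le hV

theorem lip_Vl {a : ℝ} (ha : 0 < a) : LocallyLipschitz (Vl a) := by
  have h1 : LocallyLipschitz (fun X : Eu 2 => min |X.ofLp 1| (hh a)) :=
    (lip_abs.comp lip_c1).min_const _
  have h2 : LocallyLipschitz (fun X : Eu 2 => Real.cos (min |X.ofLp 1| (hh a))) := by
    have : LocallyLipschitz Real.cos := fun x => (Real.contDiff_cos (n := 1)).locallyLipschitz x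
    exact this.comp h1
  have h3 : LocallyLipschitz (fun X : Eu 2 => (max (Real.cos (min |X.ofLp 1| (hh a)) + a) (2 / 3 * a))⁻¹) :=
    (lip_inv_max (by positivity : 0 < 2 / 3 * a)).comp (h2.add (LocallyLipschitz.const a))
  have h4 := (LocallyLipschitz_mul (LocallyLipschitz.const (2 / 5 : ℝ)) h2).add
    (LocallyLipschitz_mul (LocallyLipschitz.const (10 * a ^ 4)) h3)
  exact (h4.const_max 0)

end Pool.Agent.R215.TD
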