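import Pool.Agent.R215.TD.Sub

set_option autoImplicit false
open Filter Topology Set Metric

/-! The small supersolution. -/

namespace Pool.Agent.R215.TD

open Pool.Agent.H314.Dir Pool.Agent.H52R3.Epi

/-- frequency in the long direction -/
noncomputable def om (a : ℝ) : ℝ := a / 10

noncomputable def mu (a : ℝ) : ℝ := Real.sqrt (1 - om a ^ 2)

noncomputable def qf (a x : ℝ) : ℝ := a ^ 2 * Real.cos (om a * x) ^ 2 + 25 * Real.sin (om a * x) ^ 2

noncomputable def kf (a x : ℝ) : ℝ := Real.sqrt (qf a x)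

noncomputable def kf' (a x : ℝ) : ℝ :=
  (25 - a ^ 2) * om a * (Real.sin (om a * x) * Real.cos (om a * x)) / kf a x

noncomputable def kf'' (a x : ℝ) : ℝ := -(om a ^ 2 * kf a x) + a ^ 4 / 4 / kf a x ^ 3

noncomputable def dl (a : ℝ) : ℝ := 600 / Real.cosh (10 / a)

noncomputable def gf (a x : ℝ) : ℝ := dl a * Real.cosh (x / 2)

noncomputable def Zf (z : ℝ) : ℝ := Real.sin z ^ 2 + 1 / 100

noncomputable def zw (a : ℝ) : ℝ := Real.pi / 2 + om a ^ 2 / 2

noncomputable def Sz (a : ℝ) (X : Eu 2) : ℝ :=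
  kf a (X.ofLp 0) * Real.cos (mu a * X.ofLp 1) + gf a (X.ofLp 0) * Zf (X.ofLp 1)

noncomputable def Su (a : ℝ) (X : Eu 2) : ℝ := min 1 (max (Sz a X) (|X.ofLp 1| - zw a))

theorem om_pos {a : ℝ} (ha : 0 < a) : 0 < om a := by unfold om; positivity

theorem om_le {a : ℝ} (ha1 : a ≤ 1 / 1000000) : om a ≤ 1 / 10000000 := by
  unfold om; linarith

theorem mu_sq {a : ℝ} (ha : 0 < a) (ha1 : a ≤ 1 / 1000000) : mu a ^ 2 = 1 - om a ^ 2 := by
  unfold mu
  rw [Real.sq_sqrt]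
  have h0 := om_pos ha
  have h1 := om_le ha1
  nlinarith

theorem mu_pos {a : ℝ} (ha : 0 < a) (ha1 : a ≤ 1 / 1000000) : 0 < mu a := by
  unfold mu
  apply Real.sqrt_pos.2
  have h0 := om_pos ha
  have h1 := om_le ha1
  nlinarith

theorem mu_le {a : ℝ} (ha : 0 < a) (ha1 : a ≤ 1 / 1000000) : mu a ≤ 1 - om a ^ 2 / 2 := by
  have h1 := mu_sq ha ha1
  have h0 := om_pos ha
  have h2 := om_le ha1
  have h3 : 0 ≤ 1 - om a ^ 2 / 2 := by nlinarith
  refine le_of_sq_le_sq₀' ?_ h3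
  rw [h1]
  nlinarith [sq_nonneg (om a ^ 2)]
where
  le_of_sq_le_sq₀' {x y : ℝ} (h : x ^ 2 ≤ y ^ 2) (hy : 0 ≤ y) : x ≤ y := by
    by_contra hc
    rw [not_le] at hc
    have := pow_lt_pow_left₀ hc hy (n := 2) (by norm_num)
    linarith

theorem qf_ge {a x : ℝ} (ha1 : a ≤ 1 / 1000000) (ha : 0 < a) : a ^ 2 ≤ qf a x := by
  unfold qf
  have h := Real.sin_sq_add_cos_sq (om a * x)
  have h1 : a ^ 2 ≤ 25 := by nlinarith
  have h2 := sq_nonneg (Real.sin (om a * x))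
  have h3 : Real.cos (om a * x) ^ 2 = 1 - Real.sin (om a * x) ^ 2 := by linarith
  rw [h3]
  nlinarith

theorem qf_pos {a x : ℝ} (ha : 0 < a) (ha1 : a ≤ 1 / 1000000) : 0 < qf a x :=
  lt_of_lt_of_le (by positivity) (qf_ge ha1 ha)

theorem kf_pos {a x : ℝ} (ha : 0 < a) (ha1 : a ≤ 1 / 1000000) : 0 < kf a x :=
  Real.sqrt_pos.2 (qf_pos ha ha1)

theorem kf_sq {a x : ℝ} (ha : 0 < a) (ha1 : a ≤ 1 / 1000000) : kf a x ^ 2 = qf a x :=
  Real.sq_sqrt (qf_pos ha ha1).le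

theorem kf_ge {a x : ℝ} (ha : 0 < a) (ha1 : a ≤ 1 / 1000000) : a ≤ kf a x :=
  Real.le_sqrt_of_sq_le (qf_ge ha1 ha)

theorem kf_le {a x : ℝ} (ha : 0 < a) (ha1 : a ≤ 1 / 1000000) : kf a x ≤ 5 := by
  unfold kf
  rw [Real.sqrt_le_left (by norm_num)]
  unfold qf
  have h := Real.sin_sq_add_cos_sq (om a * x)
  have h1 : a ^ 2 ≤ 25 := by nlinarith
  have h2 := sq_nonneg (Real.cos (om a * x))
  have h3 : Real.sin (om a * x) ^ 2 = 1 - Real.cos (om a * x) ^ 2 := by linarith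
  rw [h3]
  nlinarith

theorem hasDerivAt_sinom (a x : ℝ) :
    HasDerivAt (fun x => Real.sin (om a * x)) (Real.cos (om a * x) * om a) x := by
  have h1 : HasDerivAt (fun x : ℝ => om a * x) (om a) x := by
    simpa using (hasDerivAt_id x).const_mul (om a)
  exact h1.sin

theorem hasDerivAt_cosom (a x : ℝ) :
    HasDerivAt (fun x => Real.cos (om a * x)) (-Real.sin (om a * x) * om a) x := by
  have h1 : HasDerivAt (fun x : ℝ => om a * x) (om a) x := by
    simpa using (hasDerivAt_id x).const_mul (om a)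
  exact h1.cos

theorem hasDerivAt_kf {a : ℝ} (ha : 0 < a) (ha1 : a ≤ 1 / 1000000) (x : ℝ) :
    HasDerivAt (kf a) (kf' a x) x := by
  have h1 := hasDerivAt_sinom a x
  have h2 := hasDerivAt_cosom a x
  have h3 := ((h2.pow 2).const_mul (a ^ 2)).add ((h1.pow 2).const_mul 25)
  have hq := qf_pos (x := x) ha ha1
  have h4 := h3.sqrt hq.ne'
  have e : kf' a x = (a ^ 2 * (((2 : ℕ) : ℝ) * Real.cos (om a * x) ^ (2 - 1) *
      (-Real.sin (om a * x) * om a)) + 25 * (((2 : ℕ) : ℝ) * Real.sin (om a * x) ^ (2 - 1) *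
      (Real.cos (om a * x) * om a))) / (2 * Real.sqrt (qf a x)) := by
    unfold kf' kf
    have hs : Real.sqrt (qf a x) ≠ 0 := (Real.sqrt_pos.2 hq).ne'
    rw [div_eq_div_iff hs (mul_ne_zero two_ne_zero hs)]
    push_cast
    ring
  rw [e]
  exact h4

theorem hasDerivAt_kf' {a : ℝ} (ha : 0 < a) (ha1 : a ≤ 1 / 1000000) (x : ℝ) :
    HasDerivAt (kf' a) (kf'' a x) x := by
  have h1 := hasDerivAt_sinom a x
  have h2 := hasDerivAt_cosom a x
  have hk := kf_pos (x := x) ha ha1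
  have h3 := ((h1.mul h2).const_mul ((25 - a ^ 2) * om a)).div (hasDerivAt_kf ha ha1 x) hk.ne'
  have hsq := kf_sq (x := x) ha ha1
  have hsc := Real.sin_sq_add_cos_sq (om a * x)
  have e : kf'' a x = ((25 - a ^ 2) * om a * (Real.cos (om a * x) * om a * Real.cos (om a * x) +
      Real.sin (om a * x) * (-Real.sin (om a * x) * om a)) * kf a x -
      (25 - a ^ 2) * om a * (Real.sin (om a * x) * Real.cos (om a * x)) * kf' a x) / kf a x ^ 2 := by
    unfold kf'' kf'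
    unfold qf at hsq
    set k := kf a x with hkd
    set s := Real.sin (om a * x) with hs
    set c := Real.cos (om a * x) with hc
    have hom : om a = a / 10 := rfl
    rw [hom]
    field_simp
    linear_combination (-4 * ((25 - a ^ 2) * (c ^ 2 - s ^ 2) + k ^ 2 +
      (a ^ 2 * c ^ 2 + 25 * s ^ 2))) * hsq - 100 * a ^ 2 * (s ^ 2 + c ^ 2 + 1) * hsc
  rw [e]
  exact h3

end Pool.Agent.R215.TD
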