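import Pool.Agent.R215.TD.Sup

set_option autoImplicit false
open Filter Topology Set Metric

/-! The small supersolution: Laplacian and inequalities. -/

namespace Pool.Agent.R215.TD

open Pool.Agent.H314.Dir Pool.Agent.H52R3.Epi

theorem dl_pos (a : ℝ) : 0 < dl a := by
  unfold dl
  have := Real.cosh_pos (10 / a)
  positivity

theorem gf_pos (a x : ℝ) : 0 < gf a x := mul_pos (dl_pos a) (Real.cosh_pos _)

theorem Zf_pos (z : ℝ) : 0 < Zf z := by unfold Zf; positivity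

theorem Zf_ge (z : ℝ) : 1 / 100 ≤ Zf z := by
  unfold Zf
  have := sq_nonneg (Real.sin z)
  linarith

theorem Zf_le (z : ℝ) : Zf z ≤ 101 / 100 := by
  unfold Zf
  have := Real.sin_sq_le_one z
  linarith

theorem hasDerivAt_gf (a x : ℝ) : HasDerivAt (gf a) (dl a * (Real.sinh (x / 2) / 2)) x := by
  have h1 : HasDerivAt (fun x : ℝ => x / 2) (1 / 2) x := by
    simpa using (hasDerivAt_id x).div_const 2
  have h2 := (h1.cosh).const_mul (dl a)
  have e : dl a * (Real.sinh (x / 2) / 2) = dl a * (Real.sinh (x / 2) * (1 / 2)) := by ring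
  rw [e]
  exact h2

theorem hasDerivAt_gf' (a x : ℝ) :
    HasDerivAt (fun x => dl a * (Real.sinh (x / 2) / 2)) (gf a x / 4) x := by
  have h1 : HasDerivAt (fun x : ℝ => x / 2) (1 / 2) x := by
    simpa using (hasDerivAt_id x).div_const 2
  have h2 := ((h1.sinh).div_const 2).const_mul (dl a)
  have e : gf a x / 4 = dl a * (Real.cosh (x / 2) * (1 / 2) / 2) := by unfold gf; ring
  rw [e]
  exact h2

theorem hasDerivAt_Zf (z : ℝ) : HasDerivAt Zf (2 * Real.sin z * Real.cos z) z := by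
  have h1 := ((Real.hasDerivAt_sin z).pow 2).add_const (1 / 100)
  have e : 2 * Real.sin z * Real.cos z = ((2 : ℕ) : ℝ) * Real.sin z ^ (2 - 1) * Real.cos z := by
    norm_num
  rw [e]
  exact h1

theorem hasDerivAt_Zf' (z : ℝ) :
    HasDerivAt (fun z => 2 * Real.sin z * Real.cos z) (2 - 4 * Real.sin z ^ 2) z := by
  have h1 := ((Real.hasDerivAt_sin z).const_mul 2).mul (Real.hasDerivAt_cos z)
  have hsc := Real.sin_sq_add_cos_sq z
  have e : 2 - 4 * Real.sin z ^ 2 = 2 * Real.cos z * Real.cos z + 2 * Real.sin z * -Real.sin z := by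
    linear_combination (-2 : ℝ) * hsc
  rw [e]
  exact h1

theorem hasDerivAt_cmu (a z : ℝ) :
    HasDerivAt (fun z => Real.cos (mu a * z)) (-(mu a * Real.sin (mu a * z))) z := by
  have h1 : HasDerivAt (fun x : ℝ => mu a * x) (mu a) z := by
    simpa using (hasDerivAt_id z).const_mul (mu a)
  have h2 := h1.cos
  have e : -(mu a * Real.sin (mu a * z)) = -Real.sin (mu a * z) * mu a := by ring
  rw [e]
  exact h2

theorem hasDerivAt_cmu' (a z : ℝ) :
    HasDerivAt (fun z => -(mu a * Real.sin (mu a * z))) (-(mu a ^ 2 * Real.cos (mu a * z))) z := by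
  have h1 : HasDerivAt (fun x : ℝ => mu a * x) (mu a) z := by
    simpa using (hasDerivAt_id z).const_mul (mu a)
  have h2 := ((h1.sin).const_mul (mu a)).neg
  have e : -(mu a ^ 2 * Real.cos (mu a * z)) = -(mu a * (Real.cos (mu a * z) * mu a)) := by ring
  rw [e]
  exact h2

theorem contDiff_kf {a : ℝ} (ha : 0 < a) (ha1 : a ≤ 1 / 1000000) : ContDiff ℝ 2 (kf a) := by
  unfold kf
  have h : ContDiff ℝ 2 (qf a) := by unfold qf; fun_prop
  exact h.sqrt fun x => (qf_pos ha ha1).ne'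

theorem contDiff_t1 {a : ℝ} (ha : 0 < a) (ha1 : a ≤ 1 / 1000000) :
    ContDiff ℝ 2 (fun X : Eu 2 => kf a (X.ofLp 0) * Real.cos (mu a * X.ofLp 1)) := by
  have h1 : ContDiff ℝ 2 (fun X : Eu 2 => kf a (X.ofLp 0)) := (contDiff_kf ha ha1).comp contDiff_c0
  have h2 : ContDiff ℝ 2 (fun X : Eu 2 => Real.cos (mu a * X.ofLp 1)) := by fun_prop
  exact h1.mul h2

theorem contDiff_t2 (a : ℝ) :
    ContDiff ℝ 2 (fun X : Eu 2 => gf a (X.ofLp 0) * Zf (X.ofLp 1)) := by
  unfold gf Zf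
  have h0 : ContDiff ℝ 2 (fun X : Eu 2 => X.ofLp 0 / 2) := by fun_prop
  have h1 : ContDiff ℝ 2 (fun X : Eu 2 => Real.cosh (X.ofLp 0 / 2)) := Real.contDiff_cosh.comp h0
  have h2 : ContDiff ℝ 2 (fun X : Eu 2 => Real.sin (X.ofLp 1) ^ 2 + 1 / 100) := by fun_prop
  exact (contDiff_const.mul h1).mul h2

theorem contDiff_Sz {a : ℝ} (ha : 0 < a) (ha1 : a ≤ 1 / 1000000) : ContDiff ℝ 2 (Sz a) :=
  (contDiff_t1 ha ha1).add (contDiff_t2 a)

theorem lap_Sz {a : ℝ} (ha : 0 < a) (ha1 : a ≤ 1 / 1000000) (X : Eu 2) :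
    lap (Sz a) X = -(kf a (X.ofLp 0) * Real.cos (mu a * X.ofLp 1)) +
      a ^ 4 / 4 / kf a (X.ofLp 0) ^ 3 * Real.cos (mu a * X.ofLp 1) +
      gf a (X.ofLp 0) * (Zf (X.ofLp 1) / 4 + 2 - 4 * Real.sin (X.ofLp 1) ^ 2) := by
  have h1 := lap_prod (P := kf a) (P' := kf' a) (p'' := kf'' a (X.ofLp 0))
    (Q := fun z => Real.cos (mu a * z)) (Q' := fun z => -(mu a * Real.sin (mu a * z)))
    (q'' := -(mu a ^ 2 * Real.cos (mu a * X.ofLp 1))) X
    (Eventually.of_forall fun x => hasDerivAt_kf ha ha1 x) (hasDerivAt_kf' ha ha1 _)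
    (Eventually.of_forall fun z => hasDerivAt_cmu a z) (hasDerivAt_cmu' a _)
    (contDiff_t1 ha ha1).contDiffAt
  have h2 := lap_prod (P := gf a) (P' := fun x => dl a * (Real.sinh (x / 2) / 2))
    (p'' := gf a (X.ofLp 0) / 4)
    (Q := Zf) (Q' := fun z => 2 * Real.sin z * Real.cos z)
    (q'' := 2 - 4 * Real.sin (X.ofLp 1) ^ 2) X
    (Eventually.of_forall fun x => hasDerivAt_gf a x) (hasDerivAt_gf' a _)
    (Eventually.of_forall fun z => hasDerivAt_Zf z) (hasDerivAt_Zf' _)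
    (contDiff_t2 a).contDiffAt
  have h3 : lap (Sz a) X = _ + _ := lap_add (contDiff_t1 ha ha1).contDiffAt (contDiff_t2 a).contDiffAt
  rw [h3, h1, h2]
  have hmu := mu_sq ha ha1
  unfold kf''
  linear_combination (-(kf a (X.ofLp 0) * Real.cos (mu a * X.ofLp 1))) * hmu

/-- `g` is at least `600` far out -/
theorem gf_ge {a x : ℝ} (ha : 0 < a) (hx : 20 / a ≤ |x|) : 600 ≤ gf a x := by
  have h1 : Real.cosh (10 / a) ≤ Real.cosh (x / 2) := by
    rw [Real.cosh_le_cosh, abs_of_pos (by positivity : 0 < 10 / a), abs_div, abs_two]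
    have : 10 / a = 20 / a / 2 := by ring
    rw [this]
    linarith
  unfold gf dl
  rw [div_mul_eq_mul_div, le_div_iff₀ (Real.cosh_pos _)]
  linarith

/-- `g` is tiny near the middle -/
theorem gf_le {a x : ℝ} (ha : 0 < a) (ha1 : a ≤ 1 / 1000000) (hx : |x| ≤ 5 / a) :
    gf a x ≤ a ^ 5 / 100000 := by
  have h1 : Real.cosh (x / 2) ≤ Real.exp (5 / 2 / a) := by
    have h2 : Real.cosh (x / 2) ≤ Real.cosh (5 / 2 / a) := by
      rw [Real.cosh_le_cosh, abs_of_pos (by positivity : 0 < 5 / 2 / a), abs_div, abs_two]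
      have : 5 / 2 / a = 5 / a / 2 := by ring
      rw [this]
      linarith
    refine h2.trans ?_
    rw [Real.cosh_eq]
    have : Real.exp (-(5 / 2 / a)) ≤ Real.exp (5 / 2 / a) := by
      apply Real.exp_le_exp.2
      have : 0 < 5 / 2 / a := by positivity
      linarith
    linarith
  have h3 : Real.exp (10 / a) / 2 ≤ Real.cosh (10 / a) := by
    rw [Real.cosh_eq]
    have := Real.exp_pos (-(10 / a))
    linarith
  have h4 : Real.exp (10 / a) = Real.exp (5 / 2 / a) * Real.exp (15 / 2 / a) := by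
    rw [← Real.exp_add]
    congr 1
    ring
  have h5 : (15 / 2 / a) ^ 7 / 5040 ≤ Real.exp (15 / 2 / a) := by
    have := Real.pow_div_factorial_le_exp (15 / 2 / a) (by positivity) 7
    norm_num [Nat.factorial] at this ⊢
    exact this
  have h6 : 120000000 ≤ a ^ 5 * Real.exp (15 / 2 / a) := by
    have h7 : a ^ 5 * ((15 / 2 / a) ^ 7 / 5040) ≤ a ^ 5 * Real.exp (15 / 2 / a) :=
      mul_le_mul_of_nonneg_left h5 (by positivity)
    refine le_trans ?_ h7
    have h8 : a ^ 5 * ((15 / 2 / a) ^ 7 / 5040) = ((15 / 2) ^ 7 / 5040) / a ^ 2 := by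
      field_simp
    rw [h8, le_div_iff₀ (by positivity)]
    have h9 : a ^ 2 ≤ (1 / 1000000) ^ 2 := pow_le_pow_left₀ ha.le ha1 2
    norm_num at h9 ⊢
    linarith
  unfold gf dl
  rw [div_mul_eq_mul_div, div_le_iff₀ (Real.cosh_pos _)]
  have h10 : a ^ 5 / 100000 * (Real.exp (10 / a) / 2) ≤ a ^ 5 / 100000 * Real.cosh (10 / a) :=
    mul_le_mul_of_nonneg_left h3 (by positivity)
  refine le_trans ?_ h10
  rw [h4]
  have h11 := Real.exp_pos (5 / 2 / a)
  nlinarith

/-- `k ≥ 2` away from the middle -/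
theorem kf_ge_two {a x : ℝ} (ha : 0 < a) (ha1 : a ≤ 1 / 1000000) (h1 : 5 / a ≤ |x|)
    (h2 : |x| ≤ 20 / a) : 2 ≤ kf a x := by
  have hs : 2 / 5 ≤ |Real.sin (om a * x)| := by
    have e : |Real.sin (om a * x)| = |Real.sin (om a * |x|)| := by
      rcases abs_cases x with ⟨h, _⟩ | ⟨h, _⟩
      · rw [h]
      · rw [h, mul_neg, Real.sin_neg, abs_neg]
    rw [e]
    have l1 : 1 / 2 ≤ om a * |x| := by
      unfold om
      have := mul_le_mul_of_nonneg_left h1 ha.le
      rw [mul_div_cancel₀ _ ha.ne'] at this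
      linarith
    have l2 : om a * |x| ≤ 2 := by
      unfold om
      have := mul_le_mul_of_nonneg_left h2 ha.le
      rw [mul_div_cancel₀ _ ha.ne'] at this
      linarith
    set y := om a * |x| with hy
    refine le_trans ?_ (le_abs_self _)
    rcases le_total y 1 with h3 | h3
    · have := Real.sin_gt_sub_cube (x := y) (by linarith)
      have h4 : y ^ 3 ≤ y := by nlinarith [mul_nonneg (by linarith : 0 ≤ y) (by linarith : 0 ≤ 1 - y)]
      linarith
    · -- `sin y ≥ sin` on `[1, 2]` via `sin y = cos (y - π/2)`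
      have h4 : Real.sin y = Real.cos (y - Real.pi / 2) := by
        rw [Real.cos_sub_pi_div_two]
      rw [h4]
      have h5 := Real.one_sub_sq_div_two_le_cos (x := y - Real.pi / 2)
      have h6 := Real.pi_gt_three
      have h7 := Real.pi_lt_d2
      have h8 : (y - Real.pi / 2) ^ 2 ≤ (3 / 5) ^ 2 := by
        apply sq_le_sq'
        · linarith
        · linarith
      linarith
  unfold kf
  apply Real.le_sqrt_of_sq_le
  unfold qf
  have h3 : (2 / 5) ^ 2 ≤ |Real.sin (om a * x)| ^ 2 := pow_le_pow_left₀ (by norm_num) hs 2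
  rw [sq_abs] at h3
  have h4 : 0 ≤ a ^ 2 * Real.cos (om a * x) ^ 2 := by positivity
  linarith

/-- vertical position facts -/
theorem cmu_nonneg {a z : ℝ} (ha : 0 < a) (ha1 : a ≤ 1 / 1000000) (hz : |z| ≤ zw a) :
    0 ≤ Real.cos (mu a * z) := by
  have h1 := mu_le ha ha1
  have h2 := mu_pos ha ha1
  have h3 := Real.pi_gt_three
  have h0 := om_pos ha
  have h4 : mu a * |z| ≤ Real.pi / 2 := by
    have h5 : mu a * |z| ≤ (1 - om a ^ 2 / 2) * zw a :=
      mul_le_mul h1 hz (abs_nonneg _) (h2.le.trans h1)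
    refine h5.trans ?_
    unfold zw
    nlinarith [sq_nonneg (om a ^ 2), mul_pos h0 h0]
  have h5 : |mu a * z| ≤ Real.pi / 2 := by
    rw [abs_mul, abs_of_pos h2]; exact h4
  rw [abs_le] at h5
  exact Real.cos_nonneg_of_mem_Icc ⟨by linarith [h5.1], h5.2⟩

theorem sin_sq_ge {a z : ℝ} (ha : 0 < a) (ha1 : a ≤ 1 / 1000000) (hz : |z| ≤ zw a)
    (hc : Real.cos (mu a * z) ≤ 1 / 2) : 3 / 4 ≤ Real.sin z ^ 2 := by
  have h1 := mu_le ha ha1
  have h2 := mu_pos ha ha1
  have h3 := Real.pi_gt_three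
  have h0 := om_pos ha
  have h00 := om_le ha1
  have hzw : zw a ≤ Real.pi := by
    unfold zw
    nlinarith
  have h5 : Real.cos z ≤ 1 / 2 := by
    have h6 : Real.cos |z| ≤ Real.cos (mu a * |z|) := by
      apply Real.cos_le_cos_of_nonneg_of_le_pi (mul_nonneg h2.le (abs_nonneg _)) (hz.trans hzw)
      have : mu a ≤ 1 := by nlinarith
      nlinarith [abs_nonneg z]
    rw [Real.cos_abs] at h6
    have h7 : Real.cos (mu a * |z|) = Real.cos (mu a * z) := by
      rw [← Real.cos_abs (mu a * z), abs_mul, abs_of_pos h2]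
    linarith
  have h8 : -(1 / 2) ≤ Real.cos z := by
    have h9 : Real.cos (zw a) ≤ Real.cos |z| :=
      Real.cos_le_cos_of_nonneg_of_le_pi (abs_nonneg z) hzw hz
    rw [Real.cos_abs] at h9
    refine le_trans ?_ h9
    unfold zw
    rw [add_comm, Real.cos_add_pi_div_two]
    have h10 : Real.sin (om a ^ 2 / 2) ≤ om a ^ 2 / 2 := Real.sin_le (by positivity)
    nlinarith
  have := Real.sin_sq_add_cos_sq z
  nlinarith

/-- monotonicity of the deficit for small arguments -/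
theorem DD_mono {a s t : ℝ} (ha : 0 < a) (h0 : 0 ≤ s) (hst : s ≤ t) (ht : t ≤ 51 / 100 * a) :
    DD a s ≤ DD a t := by
  have h := DD_sub ha s t
  have h1 : 0 ≤ DD a t - DD a s := by
    rw [h]
    apply div_nonneg _ (by positivity)
    apply mul_nonneg (by positivity)
    apply mul_nonneg (by linarith)
    have ht0 : 0 ≤ t := h0.trans hst
    have h2 : s * t * (s ^ 2 + s * t + t ^ 2) ≤ t * t * (t ^ 2 + t * t + t ^ 2) := by gcongr
    have h3 : t ^ 4 ≤ (51 / 100 * a) ^ 4 := pow_le_pow_left₀ ht0 ht 4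
    have h4 : 0 < a ^ 4 := by positivity
    nlinarith
  linarith

/-- the main inequality, in the middle region -/
theorem key_mid {a k c g Z s2 : ℝ} (ha : 0 < a) (ha1 : a ≤ 1 / 1000000) (hk : a ≤ k) (hk5 : k ≤ 5)
    (hc0 : 0 ≤ c) (hc1 : c ≤ 1) (hg : 0 < g) (hg1 : g ≤ a ^ 5 / 100000) (hs0 : 0 ≤ s2) (hs1 : s2 ≤ 1)
    (hZ : Z = s2 + 1 / 100) (hs : c ≤ 1 / 2 → 3 / 4 ≤ s2) :
    a ^ 4 / 4 / k ^ 3 * c + g * (5 / 4 * Z + 2 - 4 * s2) ≤ DD a (k * c + g * Z) := by
  have hk0 : 0 < k := ha.trans_le hk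
  have h4 : 0 < a ^ 4 := by positivity
  have ht0 : 0 ≤ k * c := mul_nonneg hk0.le hc0
  have hZ0 : 0 < Z := by rw [hZ]; linarith
  have hZ1 : Z ≤ 101 / 100 := by rw [hZ]; linarith
  have hgZ : 0 < g * Z := mul_pos hg hZ0
  -- lower bound for `D(t)`
  have hD : a ^ 4 / 4 / k ^ 3 * c + a ^ 4 * (k * c) / (12 * k ^ 4) ≤ DD a (k * c) := by
    have e : a ^ 4 / 4 / k ^ 3 * c + a ^ 4 * (k * c) / (12 * k ^ 4) =
        2 / 3 * a ^ 4 * (k * c) / (2 * k ^ 4) := by
      field_simp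
      ring
    rw [e]
    unfold DD
    apply div_le_div_of_nonneg_left (by positivity) (den_pos ha _)
    have h5 : a ^ 4 ≤ k ^ 4 := pow_le_pow_left₀ ha.le hk 4
    have h6 : (k * c) ^ 4 ≤ k ^ 4 := by
      apply pow_le_pow_left₀ ht0
      nlinarith
    linarith
  rcases le_total (a / 2) (k * c) with h | h
  · have h5 := DD_lip ha (k * c + g * Z) (k * c)
    rw [add_sub_cancel_left, abs_of_pos hgZ] at h5
    have h6 := (abs_le.1 h5).1
    have h7 : a ^ 5 / 15000 ≤ a ^ 4 * (k * c) / (12 * k ^ 4) := by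
      rw [div_le_div_iff₀ (by norm_num) (by positivity)]
      have h8 : k ^ 4 ≤ 5 ^ 4 := pow_le_pow_left₀ hk0.le hk5 4
      have h9 : a ^ 5 * (12 * k ^ 4) ≤ a ^ 5 * (12 * 5 ^ 4) :=
        mul_le_mul_of_nonneg_left (by linarith) (by positivity)
      have h10 : a ^ 4 * (a / 2) * 15000 ≤ a ^ 4 * (k * c) * 15000 := by
        apply mul_le_mul_of_nonneg_right _ (by norm_num)
        exact mul_le_mul_of_nonneg_left h h4.le
      have e : a ^ 4 * (a / 2) * 15000 = a ^ 5 * (12 * 5 ^ 4) := by ring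
      linarith
    have h11 : g * (5 / 4 * Z + 2 - 4 * s2) ≤ g * (21 / 10) := by
      apply mul_le_mul_of_nonneg_left _ hg.le
      rw [hZ]
      linarith
    have h12 : 2 * (g * Z) ≤ g * (202 / 100) := by nlinarith
    have h13 : 0 < a ^ 5 := by positivity
    nlinarith
  · -- small amplitude
    have h5 : a ^ 5 / 100000 ≤ a / 10000 := by
      have h6 : a ^ 4 ≤ (1 / 1000000) ^ 4 := pow_le_pow_left₀ ha.le ha1 4
      norm_num at h6
      nlinarith
    have h6 : k * c + g * Z ≤ 51 / 100 * a := by nlinarith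
    have h7 := DD_mono ha ht0 (by linarith : k * c ≤ k * c + g * Z) h6
    have h8 : c ≤ 1 / 2 := by
      by_contra hcon
      rw [not_le] at hcon
      nlinarith
    have h9 := hs h8
    have h10 : g * (5 / 4 * Z + 2 - 4 * s2) ≤ 0 := by
      apply mul_nonpos_of_nonneg_of_nonpos hg.le
      rw [hZ]
      linarith
    have h11 : 0 ≤ a ^ 4 * (k * c) / (12 * k ^ 4) := by positivity
    linarith

/-- the main inequality, away from the middle region -/
theorem key_out {a k c g Z s2 : ℝ} (ha : 0 < a) (ha1 : a ≤ 1 / 1000000) (hk2 : 2 ≤ k)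
    (hc0 : 0 ≤ c) (hg : 0 < g) (hs0 : 0 ≤ s2)
    (hZ : Z = s2 + 1 / 100) (hs : c ≤ 1 / 2 → 3 / 4 ≤ s2) (hS : k * c + g * Z < 1) :
    a ^ 4 / 4 / k ^ 3 * c + g * (5 / 4 * Z + 2 - 4 * s2) ≤ DD a (k * c + g * Z) := by
  have hk0 : 0 < k := by linarith
  have h4 : 0 < a ^ 4 := by positivity
  have ht0 : 0 ≤ k * c := mul_nonneg hk0.le hc0
  have hZ0 : 0 < Z := by rw [hZ]; linarith
  have hgZ : 0 < g * Z := mul_pos hg hZ0
  have h8 : c ≤ 1 / 2 := by
    by_contra hcon
    rw [not_le] at hcon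
    nlinarith
  have h9 := hs h8
  have h10 : g * (5 / 4 * Z + 2 - 4 * s2) ≤ 0 := by
    apply mul_nonpos_of_nonneg_of_nonpos hg.le
    rw [hZ]
    linarith
  have hS0 : 0 ≤ k * c + g * Z := by linarith
  have h11 : 1 / 2 * a ^ 4 * (k * c + g * Z) ≤ DD a (k * c + g * Z) := by
    unfold DD
    rw [le_div_iff₀ (den_pos ha _)]
    have h12 : (k * c + g * Z) ^ 4 ≤ 1 := pow_le_one₀ hS0 hS.le
    have h13 : a ^ 4 ≤ (1 / 1000000) ^ 4 := pow_le_pow_left₀ ha.le ha1 4
    norm_num at h13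
    have h14 : 1 / 2 * a ^ 4 * (k * c + g * Z) * (a ^ 4 + (k * c + g * Z) ^ 4) ≤
        1 / 2 * a ^ 4 * (k * c + g * Z) * (4 / 3) :=
      mul_le_mul_of_nonneg_left (by linarith) (by positivity)
    linarith
  have h12 : a ^ 4 / 4 / k ^ 3 * c ≤ 1 / 2 * a ^ 4 * (k * c) := by
    have h13 : a ^ 4 / 4 / k ^ 3 ≤ 1 / 2 * a ^ 4 * k := by
      rw [div_le_iff₀ (by positivity)]
      have h14 : 16 ≤ k ^ 4 := by
        have : (2 : ℝ) ^ 4 ≤ k ^ 4 := pow_le_pow_left₀ (by norm_num) hk2 4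
        norm_num at this
        exact this
      nlinarith
    calc a ^ 4 / 4 / k ^ 3 * c ≤ 1 / 2 * a ^ 4 * k * c := mul_le_mul_of_nonneg_right h13 hc0
      _ = _ := by ring
  have h15 : 1 / 2 * a ^ 4 * (k * c) ≤ 1 / 2 * a ^ 4 * (k * c + g * Z) :=
    mul_le_mul_of_nonneg_left (by linarith) (by positivity)
  linarith

end Pool.Agent.R215.TD
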