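import Pool.Agent.R215.TD.Sup2

set_option autoImplicit false
open Filter Topology Set Metric

/-! Two solutions outside two discs. -/

namespace Pool.Agent.R215.TD

open Pool.Agent.H314.Dir Pool.Agent.H52R3.Epi

/-- the radius of the discs -/
noncomputable def RR (a : ℝ) : ℝ := 160000 / a ^ 4

theorem RR_pos {a : ℝ} (ha : 0 < a) : 0 < RR a := by unfold RR; positivity

theorem RR_ge {a : ℝ} (ha : 0 < a) (ha1 : a ≤ 1 / 1000000) : 20 / a ≤ RR a ∧ 10 ≤ RR a := by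
  unfold RR
  have h3 : a ^ 3 ≤ (1 / 1000000) ^ 3 := pow_le_pow_left₀ ha.le ha1 3
  have h4 : a ^ 4 ≤ (1 / 1000000) ^ 4 := pow_le_pow_left₀ ha.le ha1 4
  norm_num at h3 h4
  constructor
  · rw [div_le_div_iff₀ ha (by positivity)]
    have : 20 * a ^ 4 = 20 * a ^ 3 * a := by ring
    rw [this]
    exact mul_le_mul_of_nonneg_right (by linarith) ha.le
  · rw [le_div_iff₀ (by positivity)]
    linarith

theorem lip_Su {a : ℝ} (ha : 0 < a) (ha1 : a ≤ 1 / 1000000) : LocallyLipschitz (Su a) := by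
  have h1 : LocallyLipschitz (Sz a) := fun x =>
    ((contDiff_Sz ha ha1).of_le (by norm_num : (1 : WithTop ℕ∞) ≤ 2)).locallyLipschitz x
  have h2 : LocallyLipschitz (fun X : Eu 2 => |X.ofLp 1| - zw a) :=
    (lip_abs.comp lip_c1).sub (LocallyLipschitz.const _)
  exact (h1.max h2).const_min 1

theorem Su_le_one (a : ℝ) (X : Eu 2) : Su a X ≤ 1 := min_le_left _ _

theorem Su_nonneg {a : ℝ} (ha : 0 < a) (ha1 : a ≤ 1 / 1000000) (X : Eu 2) : 0 ≤ Su a X := by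
  unfold Su
  refine le_min zero_le_one ?_
  rcases le_total |X.ofLp 1| (zw a) with h | h
  · refine le_trans ?_ (le_max_left _ _)
    unfold Sz
    have h1 := cmu_nonneg ha ha1 h
    have h2 := kf_pos (x := X.ofLp 0) ha ha1
    have h3 := gf_pos a (X.ofLp 0)
    have h4 := Zf_pos (X.ofLp 1)
    positivity
  · exact (by linarith : (0 : ℝ) ≤ |X.ofLp 1| - zw a).trans (le_max_right _ _)

theorem Su_far {a : ℝ} (ha : 0 < a) (ha1 : a ≤ 1 / 1000000) {X : Eu 2} (hX : 20 / a ≤ |X.ofLp 0|) :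
    Su a X = 1 := by
  unfold Su
  apply min_eq_left
  refine le_trans ?_ (le_max_left _ _)
  unfold Sz
  have h1 := gf_ge ha hX
  have h2 := Zf_ge (X.ofLp 1)
  have h3 := kf_le (x := X.ofLp 0) ha ha1
  have h4 := kf_pos (x := X.ofLp 0) ha ha1
  have h5 := Real.neg_one_le_cos (mu a * X.ofLp 1)
  have h6 : -5 ≤ kf a (X.ofLp 0) * Real.cos (mu a * X.ofLp 1) := by nlinarith
  have h7 : 600 * (1 / 100) ≤ gf a (X.ofLp 0) * Zf (X.ofLp 1) :=
    mul_le_mul h1 h2 (by norm_num) (gf_pos a _).le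
  linarith

theorem Su_zero {a : ℝ} (ha : 0 < a) (ha1 : a ≤ 1 / 1000000) : Su a 0 ≤ 1 / 5 := by
  unfold Su
  refine (min_le_right _ _).trans ?_
  simp only [PiLp.zero_apply, abs_zero]
  apply max_le
  · unfold Sz kf qf Zf
    simp only [PiLp.zero_apply, mul_zero, Real.cos_zero, Real.sin_zero]
    have h1 : Real.sqrt (a ^ 2 * 1 ^ 2 + 25 * 0 ^ 2) = a := by
      rw [show a ^ 2 * 1 ^ 2 + 25 * 0 ^ 2 = a ^ 2 by ring]
      exact Real.sqrt_sq ha.le
    rw [h1]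
    have h2 := gf_le (x := 0) ha ha1 (by rw [abs_zero]; positivity)
    have h3 : a ^ 5 ≤ 1 := pow_le_one₀ ha.le (by linarith)
    linarith
  · unfold zw
    have := Real.pi_pos
    have := om_pos ha
    have : 0 ≤ om a ^ 2 := by positivity
    linarith

theorem neck_zw {a : ℝ} (ha : 0 < a) (ha1 : a ≤ 1 / 1000000) {X : Eu 2} (hX : X ∈ Om (RR a) (hh a))
    (hx : |X.ofLp 0| ≤ 20 / a) (hz : |X.ofLp 1| ≤ zw a + 1) : |X.ofLp 1| < zw a := by
  have hR := RR_pos ha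
  obtain ⟨hR1, hR2⟩ := RR_ge ha ha1
  have h0 := om_pos ha
  have h00 := om_le ha1
  have hpi := Real.pi_lt_four
  have hzw : zw a ≤ 3 := by
    unfold zw
    nlinarith
  have hh0 := hh_pos ha
  refine (neck hR hX (hx.trans hR1) (by linarith)).trans_le ?_
  have h1 : (X.ofLp 0) ^ 2 / RR a ≤ a ^ 2 / 400 := by
    rw [div_le_iff₀ hR]
    have h2 : (X.ofLp 0) ^ 2 ≤ (20 / a) ^ 2 := by
      rw [← sq_abs]
      exact pow_le_pow_left₀ (abs_nonneg _) hx 2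
    refine h2.trans (le_of_eq ?_)
    unfold RR
    field_simp
    norm_num
  unfold hh zw om
  have h2 : 50 * a ^ 3 ≤ a ^ 2 / 400 := by nlinarith [mul_pos ha ha]
  linarith

theorem Su_super {a : ℝ} (ha : 0 < a) (ha1 : a ≤ 1 / 1000000) {X : Eu 2}
    (hX : X ∈ Om (RR a) (hh a)) (hS : Su a X < 1) :
    ContDiffAt ℝ 2 (Su a) X ∧ rf a (Su a X) ≤ -lap (Su a) X := by
  have hx : |X.ofLp 0| < 20 / a := by
    by_contra hcon
    rw [Su_far ha ha1 (not_lt.1 hcon)] at hS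
    exact lt_irrefl _ hS
  have hm : max (Sz a X) (|X.ofLp 1| - zw a) < 1 := by
    unfold Su at hS
    rcases min_lt_iff.1 hS with h | h
    · exact absurd h (lt_irrefl _)
    · exact h
  have hz1 : |X.ofLp 1| - zw a < 1 := (le_max_right _ _).trans_lt hm
  have hS1 : Sz a X < 1 := (le_max_left _ _).trans_lt hm
  have hz := neck_zw ha ha1 hX hx.le (by linarith)
  have hc0 := cmu_nonneg ha ha1 hz.le
  have hk := kf_pos (x := X.ofLp 0) ha ha1
  have hka := kf_ge (x := X.ofLp 0) ha ha1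
  have hk5 := kf_le (x := X.ofLp 0) ha ha1
  have hg := gf_pos a (X.ofLp 0)
  have hZ := Zf_pos (X.ofLp 1)
  have hSpos : 0 < Sz a X := by
    unfold Sz
    have : 0 < gf a (X.ofLp 0) * Zf (X.ofLp 1) := mul_pos hg hZ
    have : 0 ≤ kf a (X.ofLp 0) * Real.cos (mu a * X.ofLp 1) := mul_nonneg hk.le hc0
    linarith
  have hco : Continuous fun Y : Eu 2 => Y.ofLp 1 := contDiff_c1 (n := 1) |>.continuous
  have hSc : Continuous (Sz a) := (contDiff_Sz ha ha1).continuous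
  have hev : Su a =ᶠ[𝓝 X] Sz a := by
    have h1 : ∀ᶠ Y : Eu 2 in 𝓝 X, |Y.ofLp 1| < zw a :=
      hco.abs.continuousAt.eventually_lt_const hz
    have h2 : ∀ᶠ Y : Eu 2 in 𝓝 X, 0 < Sz a Y := hSc.continuousAt.eventually_const_lt hSpos
    have h3 : ∀ᶠ Y : Eu 2 in 𝓝 X, Sz a Y < 1 := hSc.continuousAt.eventually_lt_const hS1
    filter_upwards [h1, h2, h3] with Y hY1 hY2 hY3
    unfold Su
    rw [max_eq_left (by linarith), min_eq_right hY3.le]
  refine ⟨(contDiff_Sz ha ha1).contDiffAt.congr_of_eventuallyEq hev, ?_⟩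
  rw [lap_congr hev, hev.self_of_nhds, lap_Sz ha ha1]
  refine (rf_le_e ha ha1 hS1.le).trans ?_
  have hc1 := Real.cos_le_one (mu a * X.ofLp 1)
  have hs0 : 0 ≤ Real.sin (X.ofLp 1) ^ 2 := sq_nonneg _
  have hs1 : Real.sin (X.ofLp 1) ^ 2 ≤ 1 := Real.sin_sq_le_one _
  have hs : Real.cos (mu a * X.ofLp 1) ≤ 1 / 2 → 3 / 4 ≤ Real.sin (X.ofLp 1) ^ 2 :=
    sin_sq_ge ha ha1 hz.le
  have key : a ^ 4 / 4 / kf a (X.ofLp 0) ^ 3 * Real.cos (mu a * X.ofLp 1) +
      gf a (X.ofLp 0) * (5 / 4 * Zf (X.ofLp 1) + 2 - 4 * Real.sin (X.ofLp 1) ^ 2) ≤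
      DD a (kf a (X.ofLp 0) * Real.cos (mu a * X.ofLp 1) + gf a (X.ofLp 0) * Zf (X.ofLp 1)) := by
    rcases le_total |X.ofLp 0| (5 / a) with h | h
    · exact key_mid ha ha1 hka hk5 hc0 hc1 hg (gf_le ha ha1 h) hs0 hs1 rfl hs
    · exact key_out ha ha1 (kf_ge_two ha ha1 h hx.le) hc0 hg hs0 rfl hs hS1
  have e : Sz a X = kf a (X.ofLp 0) * Real.cos (mu a * X.ofLp 1) +
      gf a (X.ofLp 0) * Zf (X.ofLp 1) := rfl
  rw [e]
  nlinarith

/-- a compactly supported cosine -/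
noncomputable def cc (s : ℝ) : ℝ := Real.cos (min |s| (Real.pi / 2))

theorem cc_nonneg (s : ℝ) : 0 ≤ cc s := by
  unfold cc
  apply Real.cos_nonneg_of_mem_Icc
  constructor
  · have h1 : 0 ≤ min |s| (Real.pi / 2) := le_min (abs_nonneg _) (by positivity)
    have := Real.pi_pos
    linarith
  · exact min_le_right _ _

theorem cc_le_one (s : ℝ) : cc s ≤ 1 := Real.cos_le_one _

theorem cc_of_lt {s : ℝ} (h : |s| < Real.pi / 2) : cc s = Real.cos s := by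
  unfold cc
  rw [min_eq_left h.le, Real.cos_abs]

theorem cc_of_ge {s : ℝ} (h : Real.pi / 2 ≤ |s|) : cc s = 0 := by
  unfold cc
  rw [min_eq_right h, Real.cos_pi_div_two]

theorem lip_cc : LocallyLipschitz cc := by
  have : LocallyLipschitz Real.cos := fun x => (Real.contDiff_cos (n := 1)).locallyLipschitz x
  exact this.comp (lip_abs.min_const _)

/-- the small subsolution, supported near `(R + 4, 0)` -/
noncomputable def Vs (a : ℝ) (X : Eu 2) : ℝ :=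
  1 / 2 * cc (2 / 5 * (X.ofLp 0 - (RR a + 4))) * cc (2 / 5 * X.ofLp 1)

theorem Vs_nonneg (a : ℝ) (X : Eu 2) : 0 ≤ Vs a X := by
  unfold Vs
  have := cc_nonneg (2 / 5 * (X.ofLp 0 - (RR a + 4)))
  have := cc_nonneg (2 / 5 * X.ofLp 1)
  positivity

theorem Vs_le (a : ℝ) (X : Eu 2) : Vs a X ≤ 1 / 2 := by
  unfold Vs
  have h1 := cc_nonneg (2 / 5 * (X.ofLp 0 - (RR a + 4)))
  have h2 := cc_nonneg (2 / 5 * X.ofLp 1)
  have h3 := cc_le_one (2 / 5 * (X.ofLp 0 - (RR a + 4)))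
  have h4 := cc_le_one (2 / 5 * X.ofLp 1)
  have h5 := mul_le_mul h3 h4 h2 zero_le_one
  linarith

theorem Vs_pos {a : ℝ} {X : Eu 2} (h : 0 < Vs a X) :
    |2 / 5 * (X.ofLp 0 - (RR a + 4))| < Real.pi / 2 ∧ |2 / 5 * X.ofLp 1| < Real.pi / 2 := by
  constructor
  · by_contra hcon
    unfold Vs at h
    rw [cc_of_ge (not_lt.1 hcon), mul_zero, zero_mul] at h
    exact lt_irrefl _ h
  · by_contra hcon
    unfold Vs at h
    rw [cc_of_ge (not_lt.1 hcon), mul_zero] at h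
    exact lt_irrefl _ h

theorem Vs_pos_x {a : ℝ} {X : Eu 2} (h : 0 < Vs a X) : RR a < X.ofLp 0 := by
  have h1 := (Vs_pos h).1
  have h2 := Real.pi_lt_d2
  rw [abs_lt] at h1
  have := h1.1
  linarith

theorem lip_Vs (a : ℝ) : LocallyLipschitz (Vs a) := by
  have h1 : LocallyLipschitz (fun X : Eu 2 => 2 / 5 * (X.ofLp 0 - (RR a + 4))) := fun x =>
    (by fun_prop : ContDiff ℝ 1 (fun X : Eu 2 => 2 / 5 * (X.ofLp 0 - (RR a + 4)))).locallyLipschitz x
  have h2 : LocallyLipschitz (fun X : Eu 2 => 2 / 5 * X.ofLp 1) := fun x =>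
    (by fun_prop : ContDiff ℝ 1 (fun X : Eu 2 => 2 / 5 * X.ofLp 1)).locallyLipschitz x
  exact LocallyLipschitz_mul (LocallyLipschitz_mul (LocallyLipschitz.const (1 / 2 : ℝ))
    (lip_cc.comp h1)) (lip_cc.comp h2)

theorem hasDerivAt_cosl (b x : ℝ) : HasDerivAt (fun x => Real.cos (2 / 5 * (x - b)))
    (-(2 / 5 * Real.sin (2 / 5 * (x - b)))) x := by
  have h1 : HasDerivAt (fun x : ℝ => 2 / 5 * (x - b)) (2 / 5) x := by
    simpa using ((hasDerivAt_id x).sub_const b).const_mul (2 / 5 : ℝ)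
  have h2 := h1.cos
  have e : -(2 / 5 * Real.sin (2 / 5 * (x - b))) = -Real.sin (2 / 5 * (x - b)) * (2 / 5) := by ring
  rw [e]
  exact h2

theorem hasDerivAt_cosl' (b x : ℝ) : HasDerivAt (fun x => -(2 / 5 * Real.sin (2 / 5 * (x - b))))
    (-(4 / 25 * Real.cos (2 / 5 * (x - b)))) x := by
  have h1 : HasDerivAt (fun x : ℝ => 2 / 5 * (x - b)) (2 / 5) x := by
    simpa using ((hasDerivAt_id x).sub_const b).const_mul (2 / 5 : ℝ)
  have h2 := ((h1.sin).const_mul (2 / 5)).neg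
  have e : -(4 / 25 * Real.cos (2 / 5 * (x - b))) =
      -(2 / 5 * (Real.cos (2 / 5 * (x - b)) * (2 / 5))) := by ring
  rw [e]
  exact h2

theorem Vs_sub {a : ℝ} (ha : 0 < a) {X : Eu 2} (h : 0 < Vs a X) :
    ContDiffAt ℝ 2 (Vs a) X ∧ -lap (Vs a) X ≤ rf a (Vs a X) := by
  obtain ⟨h0, h1⟩ := Vs_pos h
  have hev : Vs a =ᶠ[𝓝 X] fun Y => (1 / 2 * Real.cos (2 / 5 * (Y.ofLp 0 - (RR a + 4)))) *
      Real.cos (2 / 5 * (Y.ofLp 1 - 0)) := by
    have c0 : Continuous fun Y : Eu 2 => |2 / 5 * (Y.ofLp 0 - (RR a + 4))| := by fun_prop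
    have c1 : Continuous fun Y : Eu 2 => |2 / 5 * Y.ofLp 1| := by fun_prop
    filter_upwards [c0.continuousAt.eventually_lt_const h0, c1.continuousAt.eventually_lt_const h1]
      with Y hY0 hY1
    unfold Vs
    rw [cc_of_lt hY0, cc_of_lt hY1, sub_zero]
  have hC : ContDiff ℝ 2 (fun Y : Eu 2 => (1 / 2 * Real.cos (2 / 5 * (Y.ofLp 0 - (RR a + 4)))) *
      Real.cos (2 / 5 * (Y.ofLp 1 - 0))) := by fun_prop
  have hl := lap_prod (P := fun x => 1 / 2 * Real.cos (2 / 5 * (x - (RR a + 4))))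
    (P' := fun x => 1 / 2 * -(2 / 5 * Real.sin (2 / 5 * (x - (RR a + 4)))))
    (p'' := 1 / 2 * -(4 / 25 * Real.cos (2 / 5 * (X.ofLp 0 - (RR a + 4)))))
    (Q := fun z => Real.cos (2 / 5 * (z - 0))) (Q' := fun z => -(2 / 5 * Real.sin (2 / 5 * (z - 0))))
    (q'' := -(4 / 25 * Real.cos (2 / 5 * (X.ofLp 1 - 0)))) X
    (Eventually.of_forall fun x => (hasDerivAt_cosl _ x).const_mul _)
    ((hasDerivAt_cosl' _ _).const_mul _)
    (Eventually.of_forall fun z => hasDerivAt_cosl _ z) (hasDerivAt_cosl' _ _) hC.contDiffAt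
  refine ⟨hC.contDiffAt.congr_of_eventuallyEq hev, ?_⟩
  have h3 := rf_ge ha h.le (Vs_le a X)
  refine le_trans ?_ h3
  rw [lap_congr hev, hl]
  rw [hev.self_of_nhds] at h ⊢
  simp only at h ⊢
  nlinarith

theorem Vs_le_Su {a : ℝ} (ha : 0 < a) (ha1 : a ≤ 1 / 1000000) (X : Eu 2) : Vs a X ≤ Su a X := by
  rcases (Vs_nonneg a X).eq_or_lt with h | h
  · rw [← h]
    exact Su_nonneg ha ha1 X
  · have h1 := Vs_pos_x h
    have h2 := (RR_ge ha ha1).1
    have h3 := RR_pos ha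
    rw [Su_far ha ha1 (by rw [abs_of_pos (by linarith)]; linarith)]
    have := Vs_le a X
    linarith

theorem Vs_out {a : ℝ} (ha : 0 < a) {X : Eu 2} (hX : X ∉ Om (RR a) (hh a)) : Vs a X = 0 := by
  by_contra hcon
  have h1 := Vs_pos_x (lt_of_le_of_ne (Vs_nonneg a X) (Ne.symm hcon))
  have h2 := abs_le_of_notMem (RR_pos ha) hX
  have := le_abs_self (X.ofLp 0)
  linarith

/-- large solution -/
theorem exists_large {a : ℝ} (ha : 0 < a) (ha1 : a ≤ 1 / 1000000) : ∃ u : Eu 2 → ℝ,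
    ContDiffOn ℝ 2 u (Om (RR a) (hh a)) ∧ ContinuousOn u (closure (Om (RR a) (hh a))) ∧
      (∀ x ∈ frontier (Om (RR a) (hh a)), u x = 0) ∧ (∀ x ∈ Om (RR a) (hh a), 0 < u x) ∧
      (∀ x ∈ Om (RR a) (hh a), Vl a x ≤ u x ∧ u x ≤ 1) ∧
      (∀ x ∈ Om (RR a) (hh a), - lap u x = rf a (u x)) := by
  refine dirichlet_exists _ (isOpen_Om _ _) (ext_Om (RR_pos ha))
    (isPreconnected_Om (RR_pos ha) (hh_pos ha)) (rf a) 8 (by norm_num)
    (locallyLipschitz_rf ha ha1) (monotone_rf ha ha1) (rf_nonneg ha ha1) (rf_one a) (Vl a)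
    (fun _ => 1) (lip_Vl ha) (LocallyLipschitz.const 1) (Vl_nonneg a) ?_ ?_ ?_ ?_ ?_ ?_
  · intro x
    have := Vl_le ha ha1 x
    linarith
  · intro x
    exact le_rfl
  · intro x hx
    exact Vl_of_ge ha ha1 (le_of_notMem (RR_pos ha) hx)
  · intro x _ h
    exact Vl_sub ha ha1 h
  · intro x _ h
    exact absurd h (lt_irrefl _)
  · refine ⟨0, ?_⟩
    have := Vl_zero ha ha1
    linarith

/-- small solution -/
theorem exists_small {a : ℝ} (ha : 0 < a) (ha1 : a ≤ 1 / 1000000) : ∃ u : Eu 2 → ℝ,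
    ContDiffOn ℝ 2 u (Om (RR a) (hh a)) ∧ ContinuousOn u (closure (Om (RR a) (hh a))) ∧
      (∀ x ∈ frontier (Om (RR a) (hh a)), u x = 0) ∧ (∀ x ∈ Om (RR a) (hh a), 0 < u x) ∧
      (∀ x ∈ Om (RR a) (hh a), Vs a x ≤ u x ∧ u x ≤ Su a x) ∧
      (∀ x ∈ Om (RR a) (hh a), - lap u x = rf a (u x)) := by
  refine dirichlet_exists _ (isOpen_Om _ _) (ext_Om (RR_pos ha))
    (isPreconnected_Om (RR_pos ha) (hh_pos ha)) (rf a) 8 (by norm_num)
    (locallyLipschitz_rf ha ha1) (monotone_rf ha ha1) (rf_nonneg ha ha1) (rf_one a) (Vs a)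
    (Su a) (lip_Vs a) (lip_Su ha ha1) (Vs_nonneg a) (Vs_le_Su ha ha1) (Su_le_one a) ?_ ?_ ?_ ?_
  · intro x hx
    exact Vs_out ha hx
  · intro x _ h
    exact Vs_sub ha h
  · intro x hx h
    exact Su_super ha ha1 hx h
  · refine ⟨pt (RR a + 4) 0, ?_⟩
    unfold Vs
    rw [pt_zero, pt_one, sub_self, mul_zero, cc_of_lt (by rw [abs_zero]; positivity), Real.cos_zero]
    norm_num

end Pool.Agent.R215.TD
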